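import Mathlib

/-! The osculating conic of the plane sections through a rational point of a quintic surface
in normal form, and the residual quintic polynomial. -/

namespace Quintic99

open Polynomial

section defs

variable {S : Type*} [CommRing S]

/-- the quintic form with coefficient `e i j l` at `x0^(5-i-j-l) x1^i x2^j x3^l` -/
noncomputable def form (e : ℕ → ℕ → ℕ → S) : MvPolynomial (Fin 4) S :=
  ∑ d ∈ Finset.range 6, ∑ i ∈ Finset.range (d + 1), ∑ l ∈ Finset.range (d + 1 - i),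
    MvPolynomial.C (e i (d - i - l) l) * (MvPolynomial.X 0 ^ (5 - d) * MvPolynomial.X 1 ^ i *
      MvPolynomial.X 2 ^ (d - i - l) * MvPolynomial.X 3 ^ l)

/-- the part of degree `d` in `x1, x2, x3`, restricted to `(l + m T, 1, T)` -/
noncomputable def P (d : ℕ) (e : ℕ → ℕ → ℕ → S) (l m : S) : S[X] :=
  ∑ i ∈ Finset.range (d + 1), ∑ j ∈ Finset.range (d + 1 - i),
    C (e i (d - i - j) j) * ((C l + C m * X) ^ i * X ^ j)

def a0 (e : ℕ → ℕ → ℕ → S) (l : S) : S := e 2 0 0 * l ^ 2 + e 1 1 0 * l + e 0 2 0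
def a1 (e : ℕ → ℕ → ℕ → S) (l m : S) : S :=
  2 * e 2 0 0 * l * m + e 1 1 0 * m + e 1 0 1 * l + e 0 1 1
def a2 (e : ℕ → ℕ → ℕ → S) (m : S) : S := e 2 0 0 * m ^ 2 + e 1 0 1 * m + e 0 0 2
def b0 (e : ℕ → ℕ → ℕ → S) (l : S) : S :=
  e 3 0 0 * l ^ 3 + e 2 1 0 * l ^ 2 + e 1 2 0 * l + e 0 3 0
def b1 (e : ℕ → ℕ → ℕ → S) (l m : S) : S :=
  3 * e 3 0 0 * l ^ 2 * m + 2 * e 2 1 0 * l * m + e 1 2 0 * m + e 2 0 1 * l ^ 2 + e 1 1 1 * l
    + e 0 2 1
def b2 (e : ℕ → ℕ → ℕ → S) (l m : S) : S :=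
  3 * e 3 0 0 * l * m ^ 2 + e 2 1 0 * m ^ 2 + 2 * e 2 0 1 * l * m + e 1 1 1 * m + e 1 0 2 * l
    + e 0 1 2
def b3 (e : ℕ → ℕ → ℕ → S) (m : S) : S :=
  e 3 0 0 * m ^ 3 + e 2 0 1 * m ^ 2 + e 1 0 2 * m + e 0 0 3
def c0 (e : ℕ → ℕ → ℕ → S) (l : S) : S :=
  e 4 0 0 * l ^ 4 + e 3 1 0 * l ^ 3 + e 2 2 0 * l ^ 2 + e 1 3 0 * l + e 0 4 0

def be (e : ℕ → ℕ → ℕ → S) (l m : S) : S := a0 e l ^ 3 * a1 e l m + a0 e l ^ 2 * b0 e l
def ga (e : ℕ → ℕ → ℕ → S) (l m : S) : S :=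
  a0 e l ^ 2 * b1 e l m + a0 e l * c0 e l - a0 e l * a1 e l m * b0 e l - b0 e l ^ 2
def de (e : ℕ → ℕ → ℕ → S) (l m : S) : S := a0 e l ^ 3 * a2 e m + ga e l m

/-- the first coordinate of the osculating conic (times `a0 ^ 3`) -/
noncomputable def D' (e : ℕ → ℕ → ℕ → S) (l m : S) : S[X] :=
  C (a0 e l ^ 4) + C (be e l m) * X + C (de e l m) * X ^ 2

noncomputable def J' (e : ℕ → ℕ → ℕ → S) (l m : S) : S[X] :=
  - C (a0 e l ^ 2 * b0 e l) * (C (be e l m ^ 2 + 2 * a0 e l ^ 4 * de e l m)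
      + C (2 * be e l m * de e l m) * X + C (de e l m ^ 2) * X ^ 2)
  - (C (2 * a0 e l ^ 4 * be e l m * ga e l m)
      + C ((be e l m ^ 2 + 2 * a0 e l ^ 4 * de e l m) * ga e l m) * X
      + C (2 * be e l m * de e l m * ga e l m) * X ^ 2 + C (de e l m ^ 2 * ga e l m) * X ^ 3)
  + C (a0 e l ^ 6 * de e l m * b0 e l + a0 e l ^ 6 * be e l m * b1 e l m)
  + C (a0 e l ^ 6 * de e l m * b1 e l m) * X
  + D' e l m * (C (a0 e l ^ 6) * (C (b2 e l m) + C (b3 e m) * X))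
  + C (a0 e l ^ 9) * (P 4 e l m).divX

/-- the residual quintic polynomial -/
noncomputable def R' (e : ℕ → ℕ → ℕ → S) (l m : S) : S[X] :=
  D' e l m * J' e l m + C (a0 e l ^ 12) * P 5 e l m

theorem P2_eq (e : ℕ → ℕ → ℕ → S) (l m : S) :
    P 2 e l m = C (a0 e l) + C (a1 e l m) * X + C (a2 e m) * X ^ 2 := by
  simp only [P, a0, a1, a2, Finset.sum_range_succ, Finset.sum_range_zero, zero_add, Nat.sub_zero,
    Nat.reduceAdd, Nat.reduceSub, pow_zero, mul_one, one_mul, pow_one, map_add, map_mul, map_pow,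
    map_ofNat]
  ring

theorem P3_eq (e : ℕ → ℕ → ℕ → S) (l m : S) :
    P 3 e l m = C (b0 e l) + C (b1 e l m) * X + X ^ 2 * (C (b2 e l m) + C (b3 e m) * X) := by
  simp only [P, b0, b1, b2, b3, Finset.sum_range_succ, Finset.sum_range_zero, zero_add,
    Nat.sub_zero, Nat.reduceAdd, Nat.reduceSub, pow_zero, mul_one, one_mul, pow_one, map_add,
    map_mul, map_pow, map_ofNat]
  ring

theorem P4_coeff (e : ℕ → ℕ → ℕ → S) (l m : S) : (P 4 e l m).coeff 0 = c0 e l := by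
  rw [coeff_zero_eq_eval_zero]
  simp only [P, c0, Finset.sum_range_succ, Finset.sum_range_zero, zero_add,
    Nat.sub_zero, Nat.reduceAdd, Nat.reduceSub, pow_zero, mul_one, one_mul, pow_one, eval_add,
    eval_mul, eval_C, eval_X, eval_pow, mul_zero, add_zero, ne_eq, OfNat.ofNat_ne_zero,
    not_false_eq_true, zero_pow]
  ring

theorem P4_eq (e : ℕ → ℕ → ℕ → S) (l m : S) :
    P 4 e l m = C (c0 e l) + X * (P 4 e l m).divX := by
  conv_lhs => rw [← divX_mul_X_add (P 4 e l m)]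
  rw [P4_coeff]; ring

theorem P1_eq (e : ℕ → ℕ → ℕ → S) (l m : S) (h1 : e 1 0 0 = 0) (h2 : e 0 1 0 = 0)
    (h3 : e 0 0 1 = -1) : P 1 e l m = - X := by
  simp [P, Finset.sum_range_succ, h1, h2, h3]

theorem P0_eq (e : ℕ → ℕ → ℕ → S) (l m : S) (h0 : e 0 0 0 = 0) : P 0 e l m = 0 := by
  simp [P, h0]

/-- evaluation of a quintic form at a point of a plane through `(1:0:0:0)` -/
theorem aeval_form {B : Type*} [CommRing B] [Algebra S B] (e : ℕ → ℕ → ℕ → S) (D z w t : B) :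
    MvPolynomial.aeval ![D, z * w, z, z * t] (form e) =
      ∑ d ∈ Finset.range 6, D ^ (5 - d) * z ^ d *
        ∑ i ∈ Finset.range (d + 1), ∑ l ∈ Finset.range (d + 1 - i),
          algebraMap S B (e i (d - i - l) l) * (w ^ i * t ^ l) := by
  rw [form, map_sum]
  refine Finset.sum_congr rfl fun d _ => ?_
  rw [map_sum, Finset.mul_sum]
  refine Finset.sum_congr rfl fun i hi => ?_
  rw [map_sum, Finset.mul_sum]
  refine Finset.sum_congr rfl fun l hl => ?_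
  rw [Finset.mem_range] at hi hl
  have hd : d = i + (d - i - l) + l := by omega
  simp only [map_mul, map_pow, MvPolynomial.aeval_C, MvPolynomial.aeval_X, Matrix.cons_val_zero,
    Matrix.cons_val_one, Matrix.cons_val]
  have hz : z ^ d = z ^ i * z ^ (d - i - l) * z ^ l := by
    rw [← pow_add, ← pow_add, ← hd]
  rw [hz, mul_pow, mul_pow]
  ring

theorem aeval_conic (e : ℕ → ℕ → ℕ → S) (l m : S) (h0 : e 0 0 0 = 0) (h1 : e 1 0 0 = 0)
    (h2 : e 0 1 0 = 0) (h3 : e 0 0 1 = -1) :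
    MvPolynomial.aeval ![D' e l m, C (a0 e l ^ 3) * X * (C l + C m * X), C (a0 e l ^ 3) * X,
      C (a0 e l ^ 3) * X * X] (form e) = C (a0 e l ^ 3) * X ^ 5 * R' e l m := by
  rw [aeval_form]
  have hP : ∀ d, (∑ i ∈ Finset.range (d + 1), ∑ j ∈ Finset.range (d + 1 - i),
      algebraMap S S[X] (e i (d - i - j) j) * ((C l + C m * X) ^ i * X ^ j)) = P d e l m := by
    intro d; rfl
  simp only [hP]
  rw [Finset.sum_range_succ, Finset.sum_range_succ, Finset.sum_range_succ, Finset.sum_range_succ,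
    Finset.sum_range_succ, Finset.sum_range_one, P0_eq e l m h0, P1_eq e l m h1 h2 h3, P2_eq,
    P3_eq, P4_eq]
  simp only [R', J', D', de, be, ga, map_add, map_sub, map_mul, map_pow, map_ofNat]
  ring

end defs

end Quintic99
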