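import Pool.Agent.H99.Quintic.Conic

/-! Functoriality and degree bounds. -/

namespace Quintic99

open Polynomial

section

variable {S S' : Type*} [CommRing S] [CommRing S'] (φ : S →+* S')

theorem map_a0 (e : ℕ → ℕ → ℕ → S) (l : S) : a0 (fun i j k => φ (e i j k)) (φ l) = φ (a0 e l) := by
  simp [a0]
theorem map_a1 (e : ℕ → ℕ → ℕ → S) (l m : S) :
    a1 (fun i j k => φ (e i j k)) (φ l) (φ m) = φ (a1 e l m) := by
  simp [a1, map_ofNat]
theorem map_a2 (e : ℕ → ℕ → ℕ → S) (m : S) : a2 (fun i j k => φ (e i j k)) (φ m) = φ (a2 e m) := by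
  simp [a2]
theorem map_b0 (e : ℕ → ℕ → ℕ → S) (l : S) : b0 (fun i j k => φ (e i j k)) (φ l) = φ (b0 e l) := by
  simp [b0]
theorem map_b1 (e : ℕ → ℕ → ℕ → S) (l m : S) :
    b1 (fun i j k => φ (e i j k)) (φ l) (φ m) = φ (b1 e l m) := by
  simp [b1, map_ofNat]
theorem map_b2 (e : ℕ → ℕ → ℕ → S) (l m : S) :
    b2 (fun i j k => φ (e i j k)) (φ l) (φ m) = φ (b2 e l m) := by
  simp [b2, map_ofNat]
theorem map_b3 (e : ℕ → ℕ → ℕ → S) (m : S) :
    b3 (fun i j k => φ (e i j k)) (φ m) = φ (b3 e m) := by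
  simp [b3]
theorem map_c0 (e : ℕ → ℕ → ℕ → S) (l : S) : c0 (fun i j k => φ (e i j k)) (φ l) = φ (c0 e l) := by
  simp [c0]
theorem map_be (e : ℕ → ℕ → ℕ → S) (l m : S) :
    be (fun i j k => φ (e i j k)) (φ l) (φ m) = φ (be e l m) := by
  simp [be, map_a0, map_a1, map_b0]
theorem map_ga (e : ℕ → ℕ → ℕ → S) (l m : S) :
    ga (fun i j k => φ (e i j k)) (φ l) (φ m) = φ (ga e l m) := by
  simp [ga, map_a0, map_a1, map_b0, map_b1, map_c0]
theorem map_de (e : ℕ → ℕ → ℕ → S) (l m : S) :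
    de (fun i j k => φ (e i j k)) (φ l) (φ m) = φ (de e l m) := by
  simp [de, map_a0, map_a2, map_ga]

theorem map_D' (e : ℕ → ℕ → ℕ → S) (l m : S) :
    D' (fun i j k => φ (e i j k)) (φ l) (φ m) = (D' e l m).map φ := by
  simp [D', map_a0, map_be, map_de]

theorem map_P (d : ℕ) (e : ℕ → ℕ → ℕ → S) (l m : S) :
    P d (fun i j k => φ (e i j k)) (φ l) (φ m) = (P d e l m).map φ := by
  simp [P, Polynomial.map_sum]

theorem map_divX (p : S[X]) : (p.map φ).divX = p.divX.map φ := by
  ext n; simp [coeff_divX]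

theorem map_J' (e : ℕ → ℕ → ℕ → S) (l m : S) :
    J' (fun i j k => φ (e i j k)) (φ l) (φ m) = (J' e l m).map φ := by
  simp [J', map_a0, map_be, map_de, map_ga, map_b0, map_b1, map_b2, map_b3, map_D', map_P,
    map_divX, map_ofNat]

theorem map_R' (e : ℕ → ℕ → ℕ → S) (l m : S) :
    R' (fun i j k => φ (e i j k)) (φ l) (φ m) = (R' e l m).map φ := by
  simp [R', map_a0, map_D', map_J', map_P]

theorem map_form (e : ℕ → ℕ → ℕ → S) :
    form (fun i j k => φ (e i j k)) = MvPolynomial.map φ (form e) := by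
  simp [form, map_sum]

theorem natDegree_P_le (d : ℕ) (e : ℕ → ℕ → ℕ → S) (l m : S) : (P d e l m).natDegree ≤ d := by
  refine natDegree_sum_le_of_forall_le _ _ fun i hi => ?_
  refine natDegree_sum_le_of_forall_le _ _ fun j hj => ?_
  rw [Finset.mem_range] at hi hj
  refine (natDegree_C_mul_le _ _).trans ?_
  refine natDegree_mul_le.trans ?_
  have h1 : ((C l + C m * X : S[X]) ^ i).natDegree ≤ i := by
    refine natDegree_pow_le.trans ?_
    have : (C l + C m * X : S[X]).natDegree ≤ 1 := by compute_degree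
    nlinarith
  have h2 : ((X : S[X]) ^ j).natDegree ≤ j := natDegree_X_pow_le j
  omega

theorem natDegree_D'_le (e : ℕ → ℕ → ℕ → S) (l m : S) : (D' e l m).natDegree ≤ 2 := by
  unfold D'; compute_degree

theorem natDegree_J'_le (e : ℕ → ℕ → ℕ → S) (l m : S) : (J' e l m).natDegree ≤ 3 := by
  have h4 : ((P 4 e l m).divX).natDegree ≤ 3 := by
    rw [natDegree_divX_eq_natDegree_tsub_one]
    have := natDegree_P_le 4 e l m
    omega
  have hD := natDegree_D'_le e l m
  unfold J'
  refine natDegree_add_le_of_degree_le (natDegree_add_le_of_degree_le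
    (natDegree_add_le_of_degree_le ?_ ?_) ?_) ?_
  · compute_degree
  · compute_degree
    norm_num
  · refine natDegree_mul_le.trans ?_
    have : (C (a0 e l ^ 6) * (C (b2 e l m) + C (b3 e m) * X)).natDegree ≤ 1 := by
      compute_degree
    omega
  · exact (natDegree_C_mul_le _ _).trans h4

theorem natDegree_R'_le (e : ℕ → ℕ → ℕ → S) (l m : S) : (R' e l m).natDegree ≤ 5 := by
  unfold R'
  refine natDegree_add_le_of_degree_le ?_ ?_
  · refine natDegree_mul_le.trans ?_
    have h1 := natDegree_D'_le e l m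
    have h2 := natDegree_J'_le e l m
    omega
  · exact (natDegree_C_mul_le _ _).trans (natDegree_P_le 5 e l m)

end

end Quintic99
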