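import Mathlib

/-! Points of degree `d` on surfaces in projective three-space, and points which arise from lines
(Question Q1 of MP_396782_nt). -/

namespace Quintic99

open MvPolynomial

variable (k : Type*) [Field k]

/-- The residue field of the point of `P^3` (over the algebraic closure of `k`) with homogeneous
coordinates `v`: the field generated over `k` by all ratios of coordinates. -/
noncomputable def residueField (v : Fin 4 → AlgebraicClosure k) :
    IntermediateField k (AlgebraicClosure k) :=
  IntermediateField.adjoin k {x | ∃ i j, v j ≠ 0 ∧ x = v i / v j}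

/-- `v` represents a point of degree `d` over `k` of the surface `F = 0` in `P^3`. -/
def IsDegreePoint (F : MvPolynomial (Fin 4) k) (d : ℕ) (v : Fin 4 → AlgebraicClosure k) : Prop :=
  v ≠ 0 ∧ aeval v F = 0 ∧ Module.finrank k (residueField k v) = d

/-- The linear form with coefficients `a` vanishes at `v`. -/
def OnPlane (a : Fin 4 → k) (v : Fin 4 → AlgebraicClosure k) : Prop :=
  ∑ i, algebraMap k (AlgebraicClosure k) (a i) * v i = 0

/-- The point `v` lies on a line of `P^3` which is defined over `k` (the zero set of two linearly
independent linear forms with coefficients in `k`) and is not contained in the surface `F = 0`. -/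
def ArisesFromLine (F : MvPolynomial (Fin 4) k) (v : Fin 4 → AlgebraicClosure k) : Prop :=
  ∃ a b : Fin 4 → k, LinearIndependent k ![a, b] ∧ OnPlane k a v ∧ OnPlane k b v ∧
    ∃ w : Fin 4 → AlgebraicClosure k, OnPlane k a w ∧ OnPlane k b w ∧ aeval w F ≠ 0

/-- The surface `F = 0` in `P^3` is smooth. -/
def IsSmooth (F : MvPolynomial (Fin 4) k) : Prop :=
  ∀ v : Fin 4 → AlgebraicClosure k, v ≠ 0 → aeval v F = 0 → ∃ i, aeval v (pderiv i F) ≠ 0

/-- The points of degree `d` of the surface `F = 0` which do not arise from a line are Zariski
dense: every form over `k` which does not vanish identically on the surface is nonzero at one of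
them. -/
def DenseOffLines (F : MvPolynomial (Fin 4) k) (d : ℕ) : Prop :=
  ∀ (n : ℕ) (G : MvPolynomial (Fin 4) k), G.IsHomogeneous n →
    (∃ w : Fin 4 → AlgebraicClosure k, w ≠ 0 ∧ aeval w F = 0 ∧ aeval w G ≠ 0) →
    ∃ v, IsDegreePoint k F d v ∧ ¬ ArisesFromLine k F v ∧ aeval v G ≠ 0

end Quintic99
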