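import Pool.Agent.H99.Quintic.Points

/-! Eisenstein polynomials of degree five over an integrally closed domain and the residual
quintic of a form in a small neighbourhood of a special form. -/

namespace Quintic99

open Polynomial

theorem irreducible_of_eis {O K : Type*} [CommRing O] [IsDomain O] [IsIntegrallyClosed O]
    [Field K] [Algebra O K] [IsFractionRing O K] (𝔭 : Ideal O) (h𝔭 : 𝔭.IsMaximal) (R : O[X])
    (hd : R.natDegree ≤ 5) (r5 : R.coeff 5 ∉ 𝔭) (rlow : ∀ i < 5, R.coeff i ∈ 𝔭)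
    (r0 : R.coeff 0 ∉ 𝔭 ^ 2) :
    Irreducible (R.map (algebraMap O K)) ∧ (R.map (algebraMap O K)).natDegree = 5 := by
  set c : O := R.coeff 5 with hc
  have hprime : 𝔭.IsPrime := h𝔭.isPrime
  have hR : R = C (R.coeff 0) + C (R.coeff 1) * X + C (R.coeff 2) * X ^ 2 + C (R.coeff 3) * X ^ 3
      + C (R.coeff 4) * X ^ 4 + C c * X ^ 5 := by
    conv_lhs => rw [R.as_sum_range' 6 (by omega)]
    simp only [Finset.sum_range_succ, Finset.sum_range_zero, zero_add, ← C_mul_X_pow_eq_monomial,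
      pow_zero, mul_one, pow_one]
    rw [← hc]
  set M : O[X] := X ^ 5 + C (R.coeff 4) * X ^ 4 + C (R.coeff 3 * c) * X ^ 3
      + C (R.coeff 2 * c ^ 2) * X ^ 2 + C (R.coeff 1 * c ^ 3) * X + C (R.coeff 0 * c ^ 4) with hM
  have hMdeg : M.natDegree = 5 := by rw [hM]; compute_degree!
  have hMmonic : M.Monic := by rw [hM]; monicity!
  have hc0 : c ≠ 0 := by rintro h; rw [h] at r5; exact r5 𝔭.zero_mem
  have hcK : algebraMap O K c ≠ 0 := by
    rw [Ne, map_eq_zero_iff _ (IsFractionRing.injective O K)]; exact hc0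
  have hEis : M.IsEisensteinAt 𝔭 := by
    refine ⟨?_, ?_, ?_⟩
    · rw [hMmonic.leadingCoeff]
      exact fun h => h𝔭.ne_top ((Ideal.eq_top_iff_one 𝔭).2 h)
    · intro n hn
      rw [hMdeg] at hn
      interval_cases n
      · have : M.coeff 0 = R.coeff 0 * c ^ 4 := by
          rw [hM]; simp only [coeff_add, coeff_C_mul, coeff_X_pow, coeff_X, coeff_C]; norm_num
        rw [this]; exact 𝔭.mul_mem_right _ (rlow 0 (by norm_num))
      · have : M.coeff 1 = R.coeff 1 * c ^ 3 := by
          rw [hM]; simp only [coeff_add, coeff_C_mul, coeff_X_pow, coeff_X, coeff_C]; norm_num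
        rw [this]; exact 𝔭.mul_mem_right _ (rlow 1 (by norm_num))
      · have : M.coeff 2 = R.coeff 2 * c ^ 2 := by
          rw [hM]; simp only [coeff_add, coeff_C_mul, coeff_X_pow, coeff_X, coeff_C]; norm_num
        rw [this]; exact 𝔭.mul_mem_right _ (rlow 2 (by norm_num))
      · have : M.coeff 3 = R.coeff 3 * c := by
          rw [hM]; simp only [coeff_add, coeff_C_mul, coeff_X_pow, coeff_X, coeff_C]; norm_num
        rw [this]; exact 𝔭.mul_mem_right _ (rlow 3 (by norm_num))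
      · have : M.coeff 4 = R.coeff 4 := by
          rw [hM]; simp only [coeff_add, coeff_C_mul, coeff_X_pow, coeff_X, coeff_C]; norm_num
        rw [this]; exact rlow 4 (by norm_num)
    · have : M.coeff 0 = R.coeff 0 * c ^ 4 := by
        rw [hM]; simp only [coeff_add, coeff_C_mul, coeff_X_pow, coeff_X, coeff_C]; norm_num
      rw [this]
      intro hmem
      apply r0
      have hc4 : c ^ 4 ∉ 𝔭 := fun h => r5 (hprime.mem_of_pow_mem _ h)
      obtain ⟨y, hy⟩ := h𝔭.exists_inv hc4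
      have h1 : R.coeff 0 * (1 - y * c ^ 4) ∈ 𝔭 ^ 2 := by
        rw [pow_two]
        refine Ideal.mul_mem_mul (rlow 0 (by norm_num)) ?_
        obtain ⟨z, hz, hyz⟩ := hy
        rw [← hyz]; simpa using hz
      have h2 : y * (R.coeff 0 * c ^ 4) ∈ 𝔭 ^ 2 := (𝔭 ^ 2).mul_mem_left _ hmem
      have := (𝔭 ^ 2).add_mem h1 h2
      have h3 : R.coeff 0 * (1 - y * c ^ 4) + y * (R.coeff 0 * c ^ 4) = R.coeff 0 := by ring
      rw [h3] at this
      exact this
  have hMirr : Irreducible M := hEis.irreducible hprime hMmonic.isPrimitive (by rw [hMdeg]; norm_num)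
  have hMK : Irreducible (M.map (algebraMap O K)) :=
    (hMmonic.irreducible_iff_irreducible_map_fraction_map).1 hMirr
  let _ : Invertible (algebraMap O K c) := invertibleOfNonzero hcK
  have h1 : Irreducible (algEquivCMulXAddC (algebraMap O K c) 0 (M.map (algebraMap O K))) :=
    (MulEquiv.irreducible_iff (algEquivCMulXAddC (algebraMap O K c) 0)).2 hMK
  have h2 : algEquivCMulXAddC (algebraMap O K c) 0 (M.map (algebraMap O K)) =
      C (algebraMap O K c ^ 4) * R.map (algebraMap O K) := by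
    rw [algEquivCMulXAddC_apply]
    conv_rhs => rw [hR]
    rw [hM]
    simp only [Polynomial.map_add, Polynomial.map_mul, Polynomial.map_pow, map_X, map_C, map_add,
      map_mul, map_pow, aeval_X, aeval_C, algebraMap_eq, map_zero, add_zero]
    ring
  rw [h2] at h1
  refine ⟨(irreducible_isUnit_mul (isUnit_C.2 (IsUnit.mk0 _ (pow_ne_zero 4 hcK)))).1 h1, ?_⟩
  rw [natDegree_map_eq_of_injective (IsFractionRing.injective O K)]
  exact le_antisymm hd (le_natDegree_of_ne_zero hc0)

/-- the special form -/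
def eS {S : Type*} [CommRing S] (π : S) : ℕ → ℕ → ℕ → S := fun i j l =>
  if (i, j, l) = (0, 0, 1) then -1 else
  if (i, j, l) = (0, 2, 0) then 1 else
  if (i, j, l) = (0, 0, 5) then 1 else
  if (i, j, l) = (1, 4, 0) then 1 else
  if (i, j, l) = (5, 0, 0) then 1 else
  if (i, j, l) = (0, 5, 0) then -π else 0

theorem R'_eS {S : Type*} [CommRing S] (π : S) : R' (eS π) 0 0 = X ^ 5 - C π := by
  have h : ∀ i j l, eS π i j l = if (i, j, l) = (0, 0, 1) then -1 else
  if (i, j, l) = (0, 2, 0) then 1 else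
  if (i, j, l) = (0, 0, 5) then 1 else
  if (i, j, l) = (1, 4, 0) then 1 else
  if (i, j, l) = (5, 0, 0) then 1 else
  if (i, j, l) = (0, 5, 0) then -π else 0 := fun _ _ _ => rfl
  have ha0 : a0 (eS π) 0 = 1 := by simp [a0, h]
  have ha1 : a1 (eS π) 0 0 = 0 := by simp [a1, h]
  have ha2 : a2 (eS π) 0 = 0 := by simp [a2, h]
  have hb0 : b0 (eS π) 0 = 0 := by simp [b0, h]
  have hb1 : b1 (eS π) 0 0 = 0 := by simp [b1, h]
  have hb2 : b2 (eS π) 0 0 = 0 := by simp [b2, h]
  have hb3 : b3 (eS π) 0 = 0 := by simp [b3, h]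
  have hc0 : c0 (eS π) 0 = 0 := by simp [c0, h]
  have hbe : be (eS π) 0 0 = 0 := by simp [be, ha1, hb0]
  have hga : ga (eS π) 0 0 = 0 := by simp [ga, hb1, hc0, ha1, hb0]
  have hde : de (eS π) 0 0 = 0 := by simp [de, ha2, hga]
  have hP4 : P 4 (eS π) 0 0 = 0 := by simp [P, Finset.sum_range_succ, h]
  have hP5 : P 5 (eS π) 0 0 = X ^ 5 - C π := by
    simp [P, Finset.sum_range_succ, h]
    ring
  simp [R', J', ha0, hbe, hga, hde, hb0, hb1, hb2, hb3, hP4, hP5]

theorem R'_good {O K : Type*} [CommRing O] [IsDomain O] [IsIntegrallyClosed O]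
    [Field K] [Algebra O K] [IsFractionRing O K] (𝔭 : Ideal O) (h𝔭 : 𝔭.IsMaximal) (π : O)
    (hπ : π ∈ 𝔭) (hπ2 : π ∉ 𝔭 ^ 2) (e : ℕ → ℕ → ℕ → O)
    (he : ∀ i j l, e i j l - eS π i j l ∈ 𝔭 ^ 2) (l m : O) (hl : l ∈ 𝔭 ^ 2) (hm : m ∈ 𝔭 ^ 2) :
    Irreducible (R' (fun i j l => algebraMap O K (e i j l)) (algebraMap O K l)
      (algebraMap O K m)) ∧
    (R' (fun i j l => algebraMap O K (e i j l)) (algebraMap O K l)
      (algebraMap O K m)).natDegree = 5 ∧
    a0 (fun i j l => algebraMap O K (e i j l)) (algebraMap O K l) ≠ 0 := by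
  set φ := Ideal.Quotient.mk (𝔭 ^ 2) with hφ
  have h2 : 𝔭 ^ 2 ≤ 𝔭 := Ideal.pow_le_self (by norm_num)
  have hee : (fun i j l => φ (e i j l)) = fun i j l => φ (eS π i j l) := by
    funext i j l
    exact Ideal.Quotient.eq.2 (he i j l)
  have hφl : φ l = φ 0 := by rw [map_zero]; exact Ideal.Quotient.eq_zero_iff_mem.2 hl
  have hφm : φ m = φ 0 := by rw [map_zero]; exact Ideal.Quotient.eq_zero_iff_mem.2 hm
  have hR : (R' e l m).map φ = (X ^ 5 - C π : O[X]).map φ := by
    rw [← R'_eS π, ← map_R', ← map_R', hee, hφl, hφm]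
  have hcoeff : ∀ n, (R' e l m).coeff n - (X ^ 5 - C π : O[X]).coeff n ∈ 𝔭 ^ 2 := by
    intro n
    have := congrArg (fun p => coeff p n) hR
    simp only [coeff_map] at this
    exact Ideal.Quotient.eq.1 this
  have hA : a0 e l - 1 ∈ 𝔭 ^ 2 := by
    have h1 : φ (a0 e l) = φ 1 := by
      have ha0 : a0 (eS π) 0 = 1 := by simp [a0, eS]
      rw [← ha0, ← map_a0, ← map_a0, hee, hφl]
    exact Ideal.Quotient.eq.1 h1
  have h1𝔭 : (1 : O) ∉ 𝔭 := fun h => h𝔭.ne_top ((Ideal.eq_top_iff_one 𝔭).2 h)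
  have key := irreducible_of_eis (K := K) 𝔭 h𝔭 (R' e l m) (natDegree_R'_le e l m)
    (by
      intro h
      have h5 := hcoeff 5
      simp only [coeff_sub, coeff_X_pow, coeff_C] at h5
      norm_num at h5
      apply h1𝔭
      have := 𝔭.sub_mem h (h2 h5)
      simpa using this)
    (by
      intro i hi
      have h5 := h2 (hcoeff i)
      simp only [coeff_sub, coeff_X_pow, coeff_C] at h5
      rw [if_neg (by omega)] at h5
      by_cases hi0 : i = 0
      · rw [if_pos hi0] at h5
        have := 𝔭.sub_mem h5 hπ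
        simpa using this
      · rw [if_neg hi0] at h5
        simpa using h5)
    (by
      intro h
      have h5 := hcoeff 0
      simp only [coeff_sub, coeff_X_pow, coeff_C] at h5
      norm_num at h5
      apply hπ2
      have := (𝔭 ^ 2).sub_mem h5 h
      simpa using this)
  refine ⟨?_, ?_, ?_⟩
  · rw [map_R']; exact key.1
  · rw [map_R']; exact key.2
  · rw [map_a0, Ne, map_eq_zero_iff _ (IsFractionRing.injective O K)]
    intro h
    rw [h] at hA
    apply h1𝔭
    have := h2 hA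
    simpa using this

end Quintic99
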