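import Mathlib

/-! Elimination: an irreducible polynomial vanishing at a point of transcendence degree
`n - 1` divides every polynomial vanishing there. -/

namespace Quintic99

open MvPolynomial

section

variable {k Ω σ : Type*} [Field k] [Field Ω] [Algebra k Ω]

theorem dvd_of_aeval_eq_zero_option (a : Option σ → Ω) (F G : MvPolynomial (Option σ) k)
    (hF : Irreducible F) (hFa : aeval a F = 0) (hGa : aeval a G = 0)
    (hind : AlgebraicIndependent k (fun j : σ => a (some j))) : F ∣ G := by
  classical
  let e : MvPolynomial (Option σ) k ≃ₐ[k] Polynomial (MvPolynomial σ k) := optionEquivLeft k σ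
  let φ : (MvPolynomial σ k) →ₐ[k] Ω := aeval (fun j : σ => a (some j))
  have hφ : Function.Injective φ := hind
  have hev : ∀ H : MvPolynomial (Option σ) k,
      Polynomial.eval₂ (φ : (MvPolynomial σ k) →+* Ω) (a none) (e H) = aeval a H := by
    intro H
    have : (Polynomial.eval₂RingHom (φ : (MvPolynomial σ k) →+* Ω) (a none)).comp
        (e : MvPolynomial (Option σ) k →+* Polynomial (MvPolynomial σ k))
        = (aeval a : MvPolynomial (Option σ) k →ₐ[k] Ω).toRingHom := by
      apply MvPolynomial.ringHom_ext
      · intro r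
        simp [e, φ, optionEquivLeft_C]
      · intro i
        cases i with
        | none => simp [e, optionEquivLeft_X_none]
        | some j => simp [e, optionEquivLeft_X_some, φ]
    have h2 := congrArg (fun f => f H) this
    simpa using h2
  let _ : Algebra (MvPolynomial σ k) Ω := (φ : (MvPolynomial σ k) →+* Ω).toAlgebra
  have hinj : Function.Injective (algebraMap (MvPolynomial σ k) Ω) := hφ
  let K := FractionRing (MvPolynomial σ k)
  have : FaithfulSMul (MvPolynomial σ k) Ω := (faithfulSMul_iff_algebraMap_injective (MvPolynomial σ k) Ω).2 hinj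
  let _ : Algebra K Ω := (IsFractionRing.lift (K := K) hinj).toAlgebra
  have : IsScalarTower (MvPolynomial σ k) K Ω := by
    refine IsScalarTower.of_algebraMap_eq fun x => ?_
    exact (IsFractionRing.lift_algebraMap hinj x).symm
  set f := e F with hf
  set g := e G with hg
  have hfirr : Irreducible f := hF.map e
  have hfprime : Prime f := hfirr.prime
  have hf0 : f ≠ 0 := hfirr.ne_zero
  have hfx : Polynomial.aeval (a none) f = 0 := by
    rw [Polynomial.aeval_def]; exact (hev F).trans hFa
  have hgx : Polynomial.aeval (a none) g = 0 := by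
    rw [Polynomial.aeval_def]; exact (hev G).trans hGa
  have hcst : ∀ c : (MvPolynomial σ k), c ≠ 0 → ¬ f ∣ Polynomial.C c := by
    intro c hc hdvd
    have : Polynomial.aeval (a none) (Polynomial.C c) = 0 := by
      obtain ⟨h, hh⟩ := hdvd
      rw [hh, map_mul, hfx, zero_mul]
    rw [Polynomial.aeval_C] at this
    exact hc (hinj (by rw [this, map_zero]))
  by_cases hg0 : g = 0
  · have : G = 0 := by
      have := (map_eq_zero_iff e e.injective).1 hg0
      exact this
    rw [this]; exact dvd_zero _
  -- the minimal polynomial of `a none` over `K`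
  have hAK : Function.Injective (algebraMap (MvPolynomial σ k) K) := IsFractionRing.injective (MvPolynomial σ k) K
  have hint : IsIntegral K (a none) := by
    rw [← isAlgebraic_iff_isIntegral]
    refine ⟨f.map (algebraMap (MvPolynomial σ k) K), ?_, ?_⟩
    · rw [Ne, Polynomial.map_eq_zero_iff hAK]; exact hf0
    · rw [Polynomial.aeval_map_algebraMap]; exact hfx
  let q := minpoly K (a none)
  obtain ⟨qf, hqf⟩ := minpoly.dvd K (a none)
    (p := f.map (algebraMap (MvPolynomial σ k) K)) (by rw [Polynomial.aeval_map_algebraMap]; exact hfx)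
  obtain ⟨qg, hqg⟩ := minpoly.dvd K (a none)
    (p := g.map (algebraMap (MvPolynomial σ k) K)) (by rw [Polynomial.aeval_map_algebraMap]; exact hgx)
  have clear : ∀ p : Polynomial K, ∃ c : (MvPolynomial σ k), c ≠ 0 ∧ ∃ P : Polynomial (MvPolynomial σ k),
      P.map (algebraMap (MvPolynomial σ k) K) = Polynomial.C (algebraMap (MvPolynomial σ k) K c) * p := by
    intro p
    obtain ⟨b, hbm, hb⟩ := IsLocalization.integerNormalization_spec
      (nonZeroDivisors (MvPolynomial σ k)) p
    refine ⟨b, nonZeroDivisors.ne_zero hbm,
      IsLocalization.integerNormalization (nonZeroDivisors (MvPolynomial σ k)) p, ?_⟩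
    rw [hb, ← Polynomial.smul_eq_C_mul, algebraMap_smul]
  obtain ⟨c, hc, m, hm⟩ := clear q
  obtain ⟨c1, hc1, h1, hh1⟩ := clear qf
  obtain ⟨c2, hc2, h2, hh2⟩ := clear qg
  have E1 : Polynomial.C (c * c1) * f = m * h1 := by
    apply Polynomial.map_injective _ hAK
    rw [Polynomial.map_mul, Polynomial.map_mul, hm, hh1, hqf, Polynomial.map_C, map_mul,
      Polynomial.C_mul]
    ring
  have E2 : Polynomial.C (c * c2) * g = m * h2 := by
    apply Polynomial.map_injective _ hAK
    rw [Polynomial.map_mul, Polynomial.map_mul, hm, hh2, hqg, Polynomial.map_C, map_mul,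
      Polynomial.C_mul]
    ring
  have hmf : f ∣ m := by
    have : f ∣ m * h1 := ⟨Polynomial.C (c * c1), by rw [← E1]; ring⟩
    rcases hfprime.dvd_or_dvd this with h | ⟨h', hh'⟩
    · exact h
    · exfalso
      have E3 : Polynomial.C (c * c1) = m * h' := by
        apply mul_left_cancel₀ hf0
        calc f * Polynomial.C (c * c1) = m * h1 := by rw [← E1]; ring
          _ = f * (m * h') := by rw [hh']; ring
      have hmdeg : m.natDegree = q.natDegree := by
        have := congrArg Polynomial.natDegree hm
        rw [Polynomial.natDegree_map_eq_of_injective hAK, Polynomial.natDegree_C_mul] at this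
        · exact this
        · rw [Ne, map_eq_zero_iff _ hAK]; exact hc
      have hqpos : 0 < q.natDegree := minpoly.natDegree_pos hint
      have hprod : m * h' ≠ 0 := by
        rw [← E3, Ne, Polynomial.C_eq_zero]; exact mul_ne_zero hc hc1
      have := congrArg Polynomial.natDegree E3
      rw [Polynomial.natDegree_C, Polynomial.natDegree_mul (left_ne_zero_of_mul hprod)
        (right_ne_zero_of_mul hprod)] at this
      omega
  have hfg : f ∣ g := by
    have : f ∣ Polynomial.C (c * c2) * g := by rw [E2]; exact hmf.mul_right _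
    rcases hfprime.dvd_or_dvd this with h | h
    · exact absurd h (hcst _ (mul_ne_zero hc hc2))
    · exact h
  exact (map_dvd_iff e).1 hfg

theorem dvd_of_aeval_eq_zero {ι : Type*} (a : ι → Ω) (F G : MvPolynomial ι k)
    (hF : Irreducible F) (hFa : aeval a F = 0) (hGa : aeval a G = 0) (i : ι)
    (hind : AlgebraicIndependent k (fun j : {j // j ≠ i} => a j)) : F ∣ G := by
  classical
  let e := Equiv.optionSubtypeNe i
  let r := renameEquiv k e.symm
  have key : ∀ H : MvPolynomial ι k, aeval (fun o => a (e o)) (r H) = aeval a H := by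
    intro H
    have : (fun o => a (e o)) ∘ e.symm = a := by
      funext x; simp
    simp only [r, renameEquiv_apply, aeval_rename, this]
  have := dvd_of_aeval_eq_zero_option (fun o => a (e o)) (r F) (r G) (hF.map r)
    ((key F).trans hFa) ((key G).trans hGa) (by simpa [e] using hind)
  exact (map_dvd_iff r).1 this

theorem false_of_trdeg (a : Fin 4 → Ω) (F G : MvPolynomial (Fin 4) k)
    (hF : Irreducible F) (hFa : aeval a F = 0) (hGa : aeval a G = 0) (hFG : ¬ F ∣ G)
    [Algebra.IsAlgebraic (Algebra.adjoin k (Set.range a)) Ω]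
    (h3 : 3 ≤ Algebra.trdeg k Ω) : False := by
  classical
  obtain ⟨t, hts, ht⟩ := exists_isTranscendenceBasis_subset (R := k) (Set.range a)
  have hcard : 3 ≤ Cardinal.mk t := by
    rw [ht.cardinalMk_eq_trdeg]; exact h3
  choose idx hidx using fun x : t => hts x.2
  have hinj : Function.Injective idx := by
    intro x y hxy
    apply Subtype.ext
    rw [← hidx x, ← hidx y, hxy]
  have : Finite t := Finite.of_injective idx hinj
  have := Fintype.ofFinite t
  have hcard' : 3 ≤ Fintype.card t := by
    have : (3 : Cardinal) ≤ (Fintype.card t : Cardinal) := by rw [← Cardinal.mk_fintype]; exact hcard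
    exact_mod_cast this
  let I : Finset (Fin 4) := Finset.univ.image idx
  have hI : 3 ≤ I.card := by
    rw [Finset.card_image_of_injective _ hinj, Finset.card_univ]; exact hcard'
  have hIc : Iᶜ.card ≤ 1 := by
    rw [Finset.card_compl, Fintype.card_fin]; omega
  obtain ⟨i, hi⟩ : ∃ i : Fin 4, ∀ j, j ≠ i → j ∈ I := by
    by_cases h0 : Iᶜ = ∅
    · refine ⟨0, fun j _ => ?_⟩
      by_contra hj
      have : j ∈ Iᶜ := Finset.mem_compl.2 hj
      rw [h0] at this
      simp at this
    · obtain ⟨i, hi⟩ := Finset.nonempty_iff_ne_empty.2 h0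
      refine ⟨i, fun j hj => ?_⟩
      by_contra hj'
      exact hj (Finset.card_le_one.1 hIc _ (Finset.mem_compl.2 hj') _ hi)
  apply hFG
  refine dvd_of_aeval_eq_zero a F G hF hFa hGa i ?_
  have hmem : ∀ j : {j // j ≠ i}, ∃ x : t, idx x = j := by
    intro j
    have := hi j j.2
    simpa [I] using this
  choose g hg using hmem
  have hginj : Function.Injective g := by
    intro x y hxy
    apply Subtype.ext
    rw [← hg x, ← hg y, hxy]
  have := ht.1.comp g hginj
  have heq : (fun j : {j // j ≠ i} => a j) = (Subtype.val : t → Ω) ∘ g := by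
    funext j
    simp only [Function.comp]
    rw [← hidx (g j), hg j]
  rw [heq]
  exact this

end

end Quintic99
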