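import Pool.Agent.H99.Quintic.Family

/-! The family is Zariski dense in the space of quintic forms. -/

namespace Quintic99

open MvPolynomial

theorem mk_eq (m : Fin 4 →₀ ℕ) (hm : m.degree = 5) : mk (m 1) (m 2) (m 3) = m := by
  rw [degree_eq] at hm
  ext j
  fin_cases j
  · show 5 - m 1 - m 2 - m 3 = m 0; omega
  · rfl
  · rfl
  · rfl

theorem mk_degree (i j l : ℕ) (h : i + j + l ≤ 5) : (mk i j l).degree = 5 := by
  rw [degree_eq]
  show (5 - i - j - l) + i + j + l = 5
  omega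

theorem aeval_line {k : Type*} [Field k] (F : MvPolynomial (Fin 4) k) (t : k) :
    (aeval (![1, 0, 0, Polynomial.X] : Fin 4 → Polynomial k) F).eval t =
      eval (![1, 0, 0, t] : Fin 4 → k) F := by
  have h := congrArg (fun f => f F) (comp_aeval (![1, 0, 0, Polynomial.X] : Fin 4 → Polynomial k)
    (Polynomial.aeval t : Polynomial k →ₐ[k] k))
  have h2 : (fun i => Polynomial.aeval t ((![1, 0, 0, Polynomial.X] : Fin 4 → Polynomial k) i)) =
      ![1, 0, 0, t] := by
    funext i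
    fin_cases i <;> simp
  rw [h2] at h
  exact h

theorem exists_param {k : Type*} [Field k] [Infinite k] (Φ : MvPolynomial Q k) (hΦ : Φ ≠ 0) :
    ∃ (c p s1 s2 : k) (e : ℕ → ℕ → ℕ → k), c ≠ 0 ∧
      eval (fun m : Q => coeff m.1 (fam c p s1 s2 e)) Φ ≠ 0 := by
  classical
  let m1 : Q := ⟨mk 0 0 1, mk_degree 0 0 1 (by norm_num)⟩
  let m0 : Q := ⟨mk 0 0 0, mk_degree 0 0 0 (by norm_num)⟩
  obtain ⟨y, hy⟩ : ∃ y : Q → k, eval y (Φ * X m1) ≠ 0 := by
    by_contra hno
    push Not at hno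
    have : Φ * X m1 = 0 := MvPolynomial.funext fun y => by rw [hno y, map_zero]
    exact mul_ne_zero hΦ (X_ne_zero _) this
  rw [map_mul, eval_X] at hy
  have hyΦ := left_ne_zero_of_mul hy
  have hy1 := right_ne_zero_of_mul hy
  let e0 : ℕ → ℕ → ℕ → k := fun i j l =>
    if h : (mk i j l).degree = 5 then y ⟨mk i j l, h⟩ else 0
  let F0 := form e0
  have hcoeff : ∀ m : Q, coeff m.1 F0 = y m := by
    intro m
    rw [coeff_form e0 m.1 m.2]
    have hm : (⟨mk (m.1 1) (m.1 2) (m.1 3), by rw [mk_eq m.1 m.2]; exact m.2⟩ : Q) = m :=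
      Subtype.ext (mk_eq m.1 m.2)
    show (if h : (mk (m.1 1) (m.1 2) (m.1 3)).degree = 5 then
      y ⟨mk (m.1 1) (m.1 2) (m.1 3), h⟩ else 0) = y m
    rw [dif_pos (by rw [mk_eq m.1 m.2]; exact m.2), hm]
  have he001 : e0 0 0 1 = y m1 := dif_pos (mk_degree 0 0 1 (by norm_num))
  set h := aeval (![1, 0, 0, Polynomial.X] : Fin 4 → Polynomial k) F0 with hh
  set H3 := aeval (![1, 0, 0, Polynomial.X] : Fin 4 → Polynomial k) (pderiv 3 F0) with hH3
  have hH30 : H3 ≠ 0 := by
    intro hz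
    have h1 := aeval_line (pderiv 3 F0) 0
    rw [← hH3, hz, Polynomial.eval_zero, eval_pderiv3_e0, he001] at h1
    exact hy1 h1.symm
  have hhexp : h = Polynomial.C (e0 0 0 0) + Polynomial.C (e0 0 0 1) * Polynomial.X +
      Polynomial.X ^ 2 * (Polynomial.C (e0 0 0 2) + Polynomial.C (e0 0 0 3) * Polynomial.X +
        Polynomial.C (e0 0 0 4) * Polynomial.X ^ 2 +
        Polynomial.C (e0 0 0 5) * Polynomial.X ^ 3) := by
    rw [hh]
    show aeval _ (form e0) = _
    simp [form, Finset.sum_range_succ]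
    ring
  have hh1 : h.coeff 1 = e0 0 0 1 := by
    rw [hhexp]
    simp [Polynomial.coeff_X_pow_mul', Polynomial.coeff_C]
  let ψ : Polynomial k := aeval (fun m : Q => Polynomial.C (y m) -
    (if m = m0 then Polynomial.X else 0)) Φ
  have hψ : ∀ t, ψ.eval t = eval (fun m : Q => y m - (if m = m0 then t else 0)) Φ := by
    intro t
    have h1 := congrArg (fun f => f Φ) (comp_aeval (fun m : Q => Polynomial.C (y m) -
      (if m = m0 then Polynomial.X else 0)) (Polynomial.aeval t : Polynomial k →ₐ[k] k))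
    have h2 : (fun m : Q => Polynomial.aeval t (Polynomial.C (y m) -
        (if m = m0 then Polynomial.X else 0))) = fun m : Q => y m - (if m = m0 then t else 0) := by
      funext m
      split_ifs <;> simp
    rw [h2] at h1
    exact h1
  have hψ0 : ψ ≠ 0 := by
    intro hz
    have h1 := hψ 0
    rw [hz, Polynomial.eval_zero] at h1
    simp only [ite_self, sub_zero] at h1
    exact hyΦ h1.symm
  have hcomp : ψ.comp h ≠ 0 := by
    rw [Ne, Polynomial.comp_eq_zero_iff]
    rintro (h1 | ⟨-, h1⟩)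
    · exact hψ0 h1
    · rw [h1, Polynomial.coeff_C] at hh1
      simp at hh1
      rw [he001] at hh1
      exact hy1 hh1.symm
  obtain ⟨p, hp⟩ : ∃ p : k, ((ψ.comp h) * H3).eval p ≠ 0 := by
    by_contra hno
    push Not at hno
    exact mul_ne_zero hcomp hH30 (Polynomial.funext fun p => by
      rw [hno p, Polynomial.eval_zero])
  rw [Polynomial.eval_mul, Polynomial.eval_comp] at hp
  have hp1 := left_ne_zero_of_mul hp
  have hp2 := right_ne_zero_of_mul hp
  let F1 := F0 - C (h.eval p) * X 0 ^ 5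
  have hF1 : F1.IsHomogeneous 5 :=
    (form_isHomogeneous e0).sub (isHomogeneous_C_mul_X_pow _ _ _)
  have hz : eval (![1, 0, 0, p] : Fin 4 → k) F1 = 0 := by
    show eval (![1, 0, 0, p] : Fin 4 → k) (F0 - C (h.eval p) * X 0 ^ 5) = 0
    rw [map_sub, ← aeval_line F0 p, ← hh]
    simp
  have hd3 : eval (![1, 0, 0, p] : Fin 4 → k) (pderiv 3 F1) ≠ 0 := by
    have h1 : pderiv 3 F1 = pderiv 3 F0 := by
      show pderiv 3 (F0 - C (h.eval p) * X 0 ^ 5) = pderiv 3 F0
      rw [map_sub, pderiv_C_mul, pderiv_pow, pderiv_X_of_ne (by decide)]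
      simp
    rw [h1, ← aeval_line (pderiv 3 F0) p, ← hH3]
    exact hp2
  obtain ⟨c, p', s1, s2, e, hc, hfam⟩ := exists_fam F1 hF1 p hz hd3
  refine ⟨c, p', s1, s2, e, hc, ?_⟩
  rw [← hfam]
  have h1 : (fun m : Q => coeff m.1 F1) = fun m : Q => y m - (if m = m0 then h.eval p else 0) := by
    funext m
    show coeff m.1 (F0 - C (h.eval p) * X 0 ^ 5) = _
    rw [coeff_sub, hcoeff, coeff_C_mul, coeff_X_pow]
    congr 1
    have hm0 : (Finsupp.single 0 5 : Fin 4 →₀ ℕ) = m0.1 := by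
      ext j
      fin_cases j
      · simp [m0, mk]
      · simp [m0, mk]
      · simp [m0, mk]
      · simp [m0, mk]
    rw [hm0]
    by_cases hm : m = m0
    · rw [if_pos hm, if_pos (by rw [hm]), mul_one]
    · rw [if_neg hm, if_neg (fun h => hm (Subtype.ext h.symm)), mul_zero]
  rw [h1, ← hψ]
  exact hp1

end Quintic99
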