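import Pool.Agent.H99.Quintic.Forms

/-! The family of quintic forms with a rational point, in terms of normal forms. -/

namespace Quintic99

open MvPolynomial

/-- normalisation of the first coefficients -/
def norm {S : Type*} [CommRing S] (e : ℕ → ℕ → ℕ → S) : ℕ → ℕ → ℕ → S := fun i j l =>
  if (i, j, l) = (0, 0, 0) then 0 else
  if (i, j, l) = (1, 0, 0) then 0 else
  if (i, j, l) = (0, 1, 0) then 0 else
  if (i, j, l) = (0, 0, 1) then -1 else e i j l

theorem map_norm {S S' : Type*} [CommRing S] [CommRing S'] (φ : S →+* S') (e : ℕ → ℕ → ℕ → S) :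
    norm (fun i j l => φ (e i j l)) = fun i j l => φ (norm e i j l) := by
  funext i j l
  unfold norm
  split_ifs <;> simp

/-- the family of all quintic forms with a rational point of the affine line
`(1 : 0 : 0 : p)` -/
noncomputable def fam {S : Type*} [CommRing S] (c p s1 s2 : S) (e : ℕ → ℕ → ℕ → S) :
    MvPolynomial (Fin 4) S :=
  C c * aeval (shear p s1 s2) (form (norm e))

theorem fam_isHomogeneous {S : Type*} [CommRing S] (c p s1 s2 : S) (e : ℕ → ℕ → ℕ → S) :
    (fam c p s1 s2 e).IsHomogeneous 5 :=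
  (shear_isHomogeneous _ _ _ _ _ (form_isHomogeneous _)).C_mul c

theorem map_shear {S S' : Type*} [CommRing S] [CommRing S'] (φ : S →+* S') (p s1 s2 : S)
    (F : MvPolynomial (Fin 4) S) : map φ (aeval (shear p s1 s2) F) =
      aeval (shear (φ p) (φ s1) (φ s2)) (map φ F) := by
  have : (map φ).comp (aeval (shear p s1 s2) :
      MvPolynomial (Fin 4) S →ₐ[S] MvPolynomial (Fin 4) S).toRingHom =
      ((aeval (shear (φ p) (φ s1) (φ s2)) :
        MvPolynomial (Fin 4) S' →ₐ[S'] MvPolynomial (Fin 4) S').toRingHom).comp (map φ) := by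
    apply MvPolynomial.ringHom_ext
    · intro r
      show map φ (aeval (shear p s1 s2) (C r)) = aeval (shear (φ p) (φ s1) (φ s2)) (map φ (C r))
      rw [aeval_C, map_C, aeval_C, algebraMap_eq, algebraMap_eq, map_C]
    · intro i
      show map φ (aeval (shear p s1 s2) (X i)) = aeval (shear (φ p) (φ s1) (φ s2)) (map φ (X i))
      rw [aeval_X, map_X, aeval_X]
      fin_cases i <;> simp [shear]
  exact congrArg (fun f => f F) this

theorem map_fam {S S' : Type*} [CommRing S] [CommRing S'] (φ : S →+* S') (c p s1 s2 : S)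
    (e : ℕ → ℕ → ℕ → S) :
    map φ (fam c p s1 s2 e) = fam (φ c) (φ p) (φ s1) (φ s2) (fun i j l => φ (e i j l)) := by
  unfold fam
  rw [map_mul, map_C, map_shear, ← map_form, ← map_norm]

/-- index set of the coefficients of quintic forms in four variables -/
abbrev Q : Type := {m : Fin 4 →₀ ℕ // m.degree = 5}

/-- every quintic form with a smooth rational point `(1 : 0 : 0 : p)` transversal to the last
coordinate line is in the family -/
theorem exists_fam {k : Type*} [Field k] (F : MvPolynomial (Fin 4) k) (hF : F.IsHomogeneous 5)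
    (p : k) (hp : eval (![1, 0, 0, p] : Fin 4 → k) F = 0)
    (hp3 : eval (![1, 0, 0, p] : Fin 4 → k) (pderiv 3 F) ≠ 0) :
    ∃ (c p' s1 s2 : k) (e : ℕ → ℕ → ℕ → k), c ≠ 0 ∧ F = fam c p' s1 s2 e := by
  set q : Fin 4 → k := ![1, 0, 0, p] with hq
  set D3 := eval q (pderiv 3 F) with hD3
  set D1 := eval q (pderiv 1 F) with hD1
  set D2 := eval q (pderiv 2 F) with hD2
  set s1 : k := - D1 / D3 with hs1
  set s2 : k := - D2 / D3 with hs2
  set F2 := aeval (shear p s1 s2) F with hF2
  have hF2h : F2.IsHomogeneous 5 := shear_isHomogeneous F 5 p s1 s2 hF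
  set c : k := - D3 with hc
  have hc0 : c ≠ 0 := neg_ne_zero.2 hp3
  set e : ℕ → ℕ → ℕ → k := fun i j l => coeff (mk i j l) (C c⁻¹ * F2) with he
  have hF' : C c⁻¹ * F2 = form e := eq_form _ (hF2h.C_mul _)
  have hT : T p s1 s2 (![1, 0, 0, 0] : Fin 4 → k) = q := by
    funext i
    fin_cases i <;> simp [T, hq]
  have hev : ∀ G : MvPolynomial (Fin 4) k, eval (![1, 0, 0, 0] : Fin 4 → k)
      (aeval (shear p s1 s2) G) = eval q G := by
    intro G
    have h := aeval_shear (K := k) p s1 s2 (![1, 0, 0, 0] : Fin 4 → k) G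
    simp only [Algebra.algebraMap_self_apply, hT] at h
    exact h
  have he0 : e 0 0 0 = 0 := by
    rw [← eval_form_e0 e, ← hF', map_mul, hF2, hev, hp, mul_zero]
  have hpd : ∀ j, eval (![1, 0, 0, 0] : Fin 4 → k) (pderiv j F2) =
      ∑ i, eval q (pderiv i F) * eval (![1, 0, 0, 0] : Fin 4 → k)
        (pderiv j (shear p s1 s2 i)) := by
    intro j
    rw [hF2, pderiv_aeval, map_sum]
    refine Finset.sum_congr rfl fun i _ => ?_
    rw [map_mul, hev]
  have he3 : e 0 0 1 = -1 := by
    rw [← eval_pderiv3_e0 e, ← hF', pderiv_C_mul, map_mul, hpd, eval_C]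
    simp [Fin.sum_univ_four, shear, pderiv_X]
    rw [← hD3, hc]
    field_simp
  have he1 : e 1 0 0 = 0 := by
    rw [← eval_pderiv1_e0 e, ← hF', pderiv_C_mul, map_mul, hpd, eval_C]
    simp [Fin.sum_univ_four, shear, pderiv_X]
    right
    rw [← hD3, ← hD1, hs1]
    field_simp
    ring
  have he2 : e 0 1 0 = 0 := by
    rw [← eval_pderiv2_e0 e, ← hF', pderiv_C_mul, map_mul, hpd, eval_C]
    simp [Fin.sum_univ_four, shear, pderiv_X]
    right
    rw [← hD3, ← hD2, hs2]
    field_simp
    ring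
  have hnorm : norm e = e := by
    funext i j l
    unfold norm
    split_ifs with h1 h2 h3 h4
    · simp only [Prod.mk.injEq] at h1; obtain ⟨rfl, rfl, rfl⟩ := h1; exact he0.symm
    · simp only [Prod.mk.injEq] at h2; obtain ⟨rfl, rfl, rfl⟩ := h2; exact he1.symm
    · simp only [Prod.mk.injEq] at h3; obtain ⟨rfl, rfl, rfl⟩ := h3; exact he2.symm
    · simp only [Prod.mk.injEq] at h4; obtain ⟨rfl, rfl, rfl⟩ := h4; exact he3.symm
    · rfl
  refine ⟨c, -p, -s1, -s2, e, hc0, ?_⟩
  unfold fam
  rw [hnorm, ← hF', map_mul, aeval_C, algebraMap_eq, hF2, shear_comp, neg_add_cancel,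
    neg_add_cancel, neg_add_cancel, shear_zero, ← mul_assoc, ← C_mul, mul_inv_cancel₀ hc0, C_1,
    one_mul]

end Quintic99
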