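import Pool.Agent.H99.Quintic.Exist

/-! The main theorem on quintic surfaces over number fields. -/

namespace Quintic99

open MvPolynomial NumberField

theorem norm_close {O : Type*} [CommRing O] (𝔭 : Ideal O) (π : O) (e : ℕ → ℕ → ℕ → O)
    (he : ∀ i j l, e i j l - eS π i j l ∈ 𝔭 ^ 2) (i j l : ℕ) :
    norm e i j l - eS π i j l ∈ 𝔭 ^ 2 := by
  unfold norm
  split_ifs with h1 h2 h3 h4
  · simp only [Prod.mk.injEq] at h1; obtain ⟨rfl, rfl, rfl⟩ := h1; simp [eS]
  · simp only [Prod.mk.injEq] at h2; obtain ⟨rfl, rfl, rfl⟩ := h2; simp [eS]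
  · simp only [Prod.mk.injEq] at h3; obtain ⟨rfl, rfl, rfl⟩ := h3; simp [eS]
  · simp only [Prod.mk.injEq] at h4; obtain ⟨rfl, rfl, rfl⟩ := h4; simp [eS]
  · exact he i j l

theorem good_of_close (k : Type*) [Field k] [NumberField k]
    (W : ValuationSubring (AlgebraicClosure k)) (ψ : 𝓞 k →+* W)
    (𝔭 : Ideal (𝓞 k)) (π : 𝓞 k)
    (hψ : ∀ x, (ψ x : AlgebraicClosure k) =
      algebraMap k (AlgebraicClosure k) (algebraMap (𝓞 k) k x))
    (h7 : (7 : IsLocalRing.ResidueField W) = 0) (h𝔭 : 𝔭.IsMaximal) (hπ : π ∈ 𝔭)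
    (hπ2 : π ∉ 𝔭 ^ 2) (hres : ∀ x ∈ 𝔭, IsLocalRing.residue W (ψ x) = 0)
    (hinf : ((𝔭 ^ 2 : Ideal (𝓞 k)) : Set (𝓞 k)).Infinite) (e : ℕ → ℕ → ℕ → 𝓞 k)
    (he : ∀ i j l, e i j l - eS π i j l ∈ 𝔭 ^ 2)
    (ha : norm (fun i j l => algebraMap (𝓞 k) k (e i j l)) 2 0 0 ≠ 0)
    (hρ : rho (norm (fun i j l => algebraMap (𝓞 k) k (e i j l))) ≠ 0) :
    IsSmooth k (form (norm (fun i j l => algebraMap (𝓞 k) k (e i j l)))) ∧
    DenseOffLines k (form (norm (fun i j l => algebraMap (𝓞 k) k (e i j l)))) 5 := by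
  have he' := norm_close 𝔭 π e he
  have hmap := map_norm (algebraMap (𝓞 k) k) e
  rw [hmap] at ha hρ ⊢
  set eN := norm e with heN
  have hinj : Function.Injective (algebraMap (𝓞 k) k) := IsFractionRing.injective _ _
  refine ⟨smooth_of_close W ψ hψ h7 eN ?_, ?_⟩
  · intro i j l
    have h1 : IsLocalRing.residue W (ψ (eN i j l - eS π i j l)) = 0 :=
      hres _ (Ideal.pow_le_self (by norm_num) (he' i j l))
    rw [map_sub, map_sub, sub_eq_zero] at h1
    rw [h1]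
    unfold eS
    split_ifs <;> simp [hres π hπ]
  · have hU : (algebraMap (𝓞 k) k '' ((𝔭 ^ 2 : Ideal (𝓞 k)) : Set (𝓞 k))).Infinite :=
      hinf.image hinj.injOn
    refine dense_of_generic _ _ hU ?_ ?_ ?_ ?_ ?_ ?_ ?_
    · simp [heN, norm]
    · simp [heN, norm]
    · simp [heN, norm]
    · simp [heN, norm]
    · rintro l ⟨l', hl', rfl⟩
      exact (R'_good (K := k) 𝔭 h𝔭 π hπ hπ2 eN he' l' l' hl' hl').2.2
    · rintro l ⟨l', hl', rfl⟩ m ⟨m', hm', rfl⟩
      have h := R'_good (K := k) 𝔭 h𝔭 π hπ hπ2 eN he' l' m' hl' hm'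
      exact ⟨h.1, h.2.1⟩
    · set Ω := AlgebraicClosure (FractionRing (MvPolynomial (Fin 3) k)) with hΩ
      have hi : Function.Injective (algebraMap k Ω) := (algebraMap k Ω).injective
      refine exists_la0 (Ω := Ω) (fun i j l => algebraMap k Ω (algebraMap (𝓞 k) k (eN i j l)))
        ?_ ?_
      · rw [Ne, map_eq_zero_iff _ hi]; exact ha
      · rw [map_rho (algebraMap k Ω) (fun i j l => algebraMap (𝓞 k) k (eN i j l)), Ne,
          map_eq_zero_iff _ hi]
        exact hρ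

theorem main (k : Type*) [Field k] [NumberField k] (Φ : MvPolynomial Q k) (hΦ : Φ ≠ 0) :
    ∃ F : MvPolynomial (Fin 4) k, F.IsHomogeneous 5 ∧ IsSmooth k F ∧
      eval (fun m : Q => coeff m.1 F) Φ ≠ 0 ∧ DenseOffLines k F 5 := by
  classical
  obtain ⟨W, ψ, 𝔭, π, hψ, h7, h𝔭, hπ, hπ2, hres, hinf⟩ := exists_data k
  have hinj : Function.Injective (algebraMap (𝓞 k) k) := IsFractionRing.injective _ _
  let P := Fin 4 ⊕ (ℕ × ℕ × ℕ)
  let eA : ℕ → ℕ → ℕ → MvPolynomial P k := fun i j l => X (Sum.inr (i, j, l))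
  let FA : MvPolynomial (Fin 4) (MvPolynomial P k) :=
    fam (X (Sum.inl 0)) (X (Sum.inl 1)) (X (Sum.inl 2)) (X (Sum.inl 3)) eA
  let Θ : MvPolynomial P k := aeval (fun m : Q => coeff m.1 FA) Φ
  have hΘ : ∀ x : P → k, eval x Θ = eval (fun m : Q => coeff m.1 (fam (x (Sum.inl 0))
      (x (Sum.inl 1)) (x (Sum.inl 2)) (x (Sum.inl 3)) (fun i j l => x (Sum.inr (i, j, l))))) Φ := by
    intro x
    have h1 := map_fam (eval x) (X (Sum.inl 0)) (X (Sum.inl 1)) (X (Sum.inl 2)) (X (Sum.inl 3)) eA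
    simp only [eval_X] at h1
    have h2 : (fun i j l => eval x (eA i j l)) = fun i j l => x (Sum.inr (i, j, l)) := by
      funext i j l
      show eval x (X (Sum.inr (i, j, l))) = _
      rw [eval_X]
    rw [h2] at h1
    rw [← h1]
    show eval x (aeval (fun m : Q => coeff m.1 FA) Φ) = _
    have h3 := congrArg (fun f => f Φ) (comp_aeval (fun m : Q => coeff m.1 FA)
      (aeval x : MvPolynomial P k →ₐ[k] k))
    have h4 : (fun m : Q => coeff m.1 (map (eval x) FA)) =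
        fun m : Q => aeval x (coeff m.1 FA) := by
      funext m
      rw [coeff_map]; rfl
    show _ = eval (fun m : Q => coeff m.1 (map (eval x) FA)) Φ
    rw [h4]
    exact h3
  have hΘ0 : Θ ≠ 0 := by
    obtain ⟨c, p, s1, s2, e, -, hne⟩ := exists_param Φ hΦ
    intro hz
    have h1 := hΘ (Sum.elim ![c, p, s1, s2] (fun t => e t.1 t.2.1 t.2.2))
    rw [hz, map_zero] at h1
    exact hne h1.symm
  let Ψ : MvPolynomial P k := norm eA 2 0 0 * rho (norm eA)
  have hΨ : ∀ x : P → k, eval x Ψ = norm (fun i j l => x (Sum.inr (i, j, l))) 2 0 0 *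
      rho (norm (fun i j l => x (Sum.inr (i, j, l)))) := by
    intro x
    have h2 : (fun i j l => eval x (eA i j l)) = fun i j l => x (Sum.inr (i, j, l)) := by
      funext i j l
      show eval x (X (Sum.inr (i, j, l))) = _
      rw [eval_X]
    show eval x (norm eA 2 0 0 * rho (norm eA)) = _
    rw [map_mul, ← map_rho, ← h2, map_norm]
  have hΨ0 : Ψ ≠ 0 := by
    intro hz
    have h1 := hΨ (Sum.elim (fun _ => 0) (fun t => if t = (2, 0, 0) then 1 else
      if t = (0, 3, 0) then 1 else 0))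
    rw [hz, map_zero] at h1
    simp [norm, rho] at h1
  have hprod : Θ * X (Sum.inl 0) * Ψ ≠ 0 := mul_ne_zero (mul_ne_zero hΘ0 (X_ne_zero _)) hΨ0
  let s : P → Set k := Sum.elim (fun _ => Set.univ)
    (fun t => {a | ∃ z ∈ 𝔭 ^ 2, algebraMap (𝓞 k) k (eS π t.1 t.2.1 t.2.2 + z) = a})
  have hs : ∀ i, (s i).Infinite := by
    rintro (i | t)
    · exact Set.infinite_univ
    · have hinj2 : Function.Injective
          (fun z : 𝓞 k => algebraMap (𝓞 k) k (eS π t.1 t.2.1 t.2.2 + z)) := by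
        intro a b hab
        exact add_left_cancel (hinj hab)
      exact hinf.image hinj2.injOn
  obtain ⟨x, hxs, hx⟩ : ∃ x : P → k, (∀ i, x i ∈ s i) ∧ eval x (Θ * X (Sum.inl 0) * Ψ) ≠ 0 := by
    by_contra hno
    push Not at hno
    exact hprod (MvPolynomial.funext_set s hs fun x hx => by
      rw [map_zero]; exact hno x fun i => hx i trivial)
  rw [map_mul, map_mul, eval_X] at hx
  have hx1 := left_ne_zero_of_mul (left_ne_zero_of_mul hx)
  have hx2 := right_ne_zero_of_mul (left_ne_zero_of_mul hx)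
  have hx3 := right_ne_zero_of_mul hx
  rw [hΘ] at hx1
  rw [hΨ] at hx3
  have hch : ∀ i j l, ∃ z ∈ 𝔭 ^ 2, algebraMap (𝓞 k) k (eS π i j l + z) =
      x (Sum.inr (i, j, l)) := fun i j l => hxs (Sum.inr (i, j, l))
  choose z hz hz' using hch
  let eO : ℕ → ℕ → ℕ → 𝓞 k := fun i j l => eS π i j l + z i j l
  have heq : (fun i j l => x (Sum.inr (i, j, l))) =
      fun i j l => algebraMap (𝓞 k) k (eO i j l) := by
    funext i j l
    exact (hz' i j l).symm
  rw [heq] at hx1 hx3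
  obtain ⟨hsm, hde⟩ := good_of_close k W ψ 𝔭 π hψ h7 h𝔭 hπ hπ2 hres hinf eO
    (fun i j l => by
      show eS π i j l + z i j l - eS π i j l ∈ 𝔭 ^ 2
      rw [add_sub_cancel_left]; exact hz i j l)
    (left_ne_zero_of_mul hx3) (right_ne_zero_of_mul hx3)
  refine ⟨fam (x (Sum.inl 0)) (x (Sum.inl 1)) (x (Sum.inl 2)) (x (Sum.inl 3))
    (fun i j l => algebraMap (𝓞 k) k (eO i j l)), fam_isHomogeneous _ _ _ _ _, ?_, hx1, ?_⟩
  · exact smooth_scale _ _ hx2 (smooth_shear _ _ _ _ hsm)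
  · exact dense_scale _ _ hx2 _ (dense_shear _ _ _ _ _ hde)

end Quintic99
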