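import Pool.Agent.H99.Quintic.Shear

/-! Coefficients of quintic forms, and the existence of a common-root-free parameter. -/

namespace Quintic99

open MvPolynomial

/-- the resultant-like quantity -/
def rho {S : Type*} [CommRing S] (e : ℕ → ℕ → ℕ → S) : S :=
  let a := e 2 0 0
  let b := e 1 1 0
  let c := e 0 2 0
  let f := e 3 0 0
  let g := e 2 1 0
  let h := e 1 2 0
  let i := e 0 3 0
  let r1 := a ^ 2 * h - a * c * f - a * b * g + b ^ 2 * f
  let r0 := a ^ 2 * i - c * (a * g - b * f)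
  a * r0 ^ 2 - b * r0 * r1 + c * r1 ^ 2

theorem map_rho {S S' : Type*} [CommRing S] [CommRing S'] (φ : S →+* S') (e : ℕ → ℕ → ℕ → S) :
    rho (fun i j l => φ (e i j l)) = φ (rho e) := by
  simp [rho]

theorem exists_la0 {Ω : Type*} [Field Ω] [IsAlgClosed Ω] (e : ℕ → ℕ → ℕ → Ω)
    (ha : e 2 0 0 ≠ 0) (hρ : rho e ≠ 0) : ∃ x : Ω, a0 e x = 0 ∧ b0 e x ≠ 0 := by
  obtain ⟨x, hx⟩ := IsAlgClosed.exists_root
    (Polynomial.C (e 2 0 0) * Polynomial.X ^ 2 + Polynomial.C (e 1 1 0) * Polynomial.X +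
      Polynomial.C (e 0 2 0)) (by
        rw [Polynomial.degree_quadratic ha]; norm_num)
  have hx' : e 2 0 0 * x ^ 2 + e 1 1 0 * x + e 0 2 0 = 0 := by
    simpa using hx
  refine ⟨x, hx', ?_⟩
  intro hb
  apply hρ
  unfold b0 at hb
  simp only [rho]
  set a := e 2 0 0
  set b := e 1 1 0
  set c := e 0 2 0
  set f := e 3 0 0
  set g := e 2 1 0
  set h := e 1 2 0
  set i := e 0 3 0
  set r1 := a ^ 2 * h - a * c * f - a * b * g + b ^ 2 * f with hr1
  set r0 := a ^ 2 * i - c * (a * g - b * f) with hr0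
  have hr : r0 = - r1 * x := by
    have h1 : r1 * x + r0 = 0 := by
      rw [hr1, hr0]
      linear_combination a ^ 2 * hb - (a * f * x + a * g - b * f) * hx'
    linear_combination h1
  rw [hr]
  linear_combination r1 ^ 2 * hx'

/-- the exponent of `x0^(5-i-j-l) x1^i x2^j x3^l` -/
noncomputable def mk (i j l : ℕ) : Fin 4 →₀ ℕ :=
  Finsupp.equivFunOnFinite.symm ![5 - i - j - l, i, j, l]

theorem degree_eq (m : Fin 4 →₀ ℕ) : m.degree = m 0 + m 1 + m 2 + m 3 := by
  rw [Finsupp.degree_eq_sum, Fin.sum_univ_four]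

theorem coeff_form {S : Type*} [CommRing S] (e : ℕ → ℕ → ℕ → S) (m : Fin 4 →₀ ℕ)
    (hm : m.degree = 5) : coeff m (form e) = e (m 1) (m 2) (m 3) := by
  classical
  rw [degree_eq] at hm
  have hmono : ∀ (c : S) (d i l : ℕ), C c * (X 0 ^ (5 - d) * X 1 ^ i * X 2 ^ (d - i - l) * X 3 ^ l) =
      monomial (Finsupp.equivFunOnFinite.symm ![5 - d, i, d - i - l, l] : Fin 4 →₀ ℕ) c := by
    intro c d i l
    rw [monomial_eq, Finsupp.prod_fintype _ _ (by simp), Fin.prod_univ_four]
    rfl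
  unfold form
  simp only [hmono, coeff_sum, coeff_monomial]
  rw [Finset.sum_eq_single (5 - m 0), Finset.sum_eq_single (m 1), Finset.sum_eq_single (m 3)]
  · rw [if_pos]
    · congr 1; omega
    · ext j
      fin_cases j
      · show 5 - (5 - m 0) = m 0; omega
      · rfl
      · show 5 - m 0 - m 1 - m 3 = m 2; omega
      · rfl
  · intro l _ hl
    rw [if_neg]
    intro h
    exact hl (by rw [← h]; rfl)
  · intro h
    exact absurd (Finset.mem_range.2 (by omega)) h
  · intro i _ hi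
    refine Finset.sum_eq_zero fun l _ => ?_
    rw [if_neg]
    intro h
    exact hi (by rw [← h]; rfl)
  · intro h
    exact absurd (Finset.mem_range.2 (by omega)) h
  · intro d hd1 hd
    refine Finset.sum_eq_zero fun i _ => Finset.sum_eq_zero fun l _ => ?_
    rw [if_neg]
    intro h
    rw [Finset.mem_range] at hd1
    have h0 : m 0 = 5 - d := by rw [← h]; rfl
    omega
  · intro h
    exact absurd (Finset.mem_range.2 (by omega)) h

theorem eq_form {S : Type*} [CommRing S] (F : MvPolynomial (Fin 4) S) (hF : F.IsHomogeneous 5) :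
    F = form (fun i j l => coeff (mk i j l) F) := by
  ext m
  by_cases hm : m.degree = 5
  · rw [coeff_form _ m hm]
    congr 1
    rw [degree_eq] at hm
    ext j
    fin_cases j
    · show m 0 = 5 - m 1 - m 2 - m 3; omega
    · rfl
    · rfl
    · rfl
  · rw [hF.coeff_eq_zero hm, (form_isHomogeneous _).coeff_eq_zero hm]

theorem eval_form_e0 {S : Type*} [CommRing S] (e : ℕ → ℕ → ℕ → S) :
    eval (![1, 0, 0, 0] : Fin 4 → S) (form e) = e 0 0 0 := by
  simp [form, Finset.sum_range_succ]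

theorem eval_pderiv3_e0 {S : Type*} [CommRing S] (e : ℕ → ℕ → ℕ → S) :
    eval (![1, 0, 0, 0] : Fin 4 → S) (pderiv 3 (form e)) = e 0 0 1 := by
  simp [form, Finset.sum_range_succ, pderiv_X]

theorem eval_pderiv2_e0 {S : Type*} [CommRing S] (e : ℕ → ℕ → ℕ → S) :
    eval (![1, 0, 0, 0] : Fin 4 → S) (pderiv 2 (form e)) = e 0 1 0 := by
  simp [form, Finset.sum_range_succ, pderiv_X]

theorem eval_pderiv1_e0 {S : Type*} [CommRing S] (e : ℕ → ℕ → ℕ → S) :
    eval (![1, 0, 0, 0] : Fin 4 → S) (pderiv 1 (form e)) = e 1 0 0 := by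
  simp [form, Finset.sum_range_succ, pderiv_X]

end Quintic99
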