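import Pool.Agent.H99.Quintic.Trans

/-! Density of the points cut out by the osculating conics. -/

namespace Quintic99

open Polynomial

theorem isAlgebraic_of_gens {k : Type*} [Field k] (M : IntermediateField k
    (AlgebraicClosure (FractionRing (MvPolynomial (Fin 3) k))))
    (h : ∀ i, IsAlgebraic M (algebraMap (MvPolynomial (Fin 3) k)
      (AlgebraicClosure (FractionRing (MvPolynomial (Fin 3) k))) (MvPolynomial.X i))) :
    Algebra.IsAlgebraic M (AlgebraicClosure (FractionRing (MvPolynomial (Fin 3) k))) := by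
  set B := MvPolynomial (Fin 3) k
  set Ω := AlgebraicClosure (FractionRing B) with hΩ
  let L : IntermediateField M Ω := algebraicClosure M Ω
  have hB : ∀ b : B, algebraMap B Ω b ∈ L := by
    intro b
    induction b using MvPolynomial.induction_on with
    | C a =>
      have h1 : algebraMap B Ω (MvPolynomial.C a) = algebraMap M Ω (algebraMap k M a) := by
        rw [← IsScalarTower.algebraMap_apply k M Ω]
        exact (IsScalarTower.algebraMap_apply k B Ω a).symm
      rw [h1]
      exact L.algebraMap_mem _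
    | add p q hp hq => rw [map_add]; exact add_mem hp hq
    | mul_X p i hp =>
      rw [map_mul]
      exact mul_mem hp (mem_algebraicClosure_iff.2 (h i))
  have hK : ∀ q : FractionRing B, algebraMap (FractionRing B) Ω q ∈ L := by
    intro q
    obtain ⟨a, b, -, rfl⟩ := IsFractionRing.div_surjective (A := B) q
    rw [map_div₀, ← IsScalarTower.algebraMap_apply B (FractionRing B) Ω,
      ← IsScalarTower.algebraMap_apply B (FractionRing B) Ω]
    exact div_mem (hB a) (hB b)
  let f : FractionRing B →+* L := (algebraMap (FractionRing B) Ω).codRestrict L.toSubring hK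
  refine ⟨fun x => ?_⟩
  have h1 : IsAlgebraic L x := by
    obtain ⟨p, hp0, hp⟩ := (Algebra.IsAlgebraic.isAlgebraic x : IsAlgebraic (FractionRing B) x)
    refine ⟨p.map f, (Polynomial.map_ne_zero_iff f.injective).2 hp0, ?_⟩
    rw [aeval_def, eval₂_map]
    exact hp
  exact h1.restrictScalars M

theorem inj_BΩ (k : Type*) [Field k] : Function.Injective (algebraMap (MvPolynomial (Fin 3) k)
    (AlgebraicClosure (FractionRing (MvPolynomial (Fin 3) k)))) := by
  rw [IsScalarTower.algebraMap_eq (MvPolynomial (Fin 3) k)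
    (FractionRing (MvPolynomial (Fin 3) k))]
  exact (algebraMap (FractionRing (MvPolynomial (Fin 3) k)) _).injective.comp
    (IsFractionRing.injective _ _)

theorem three_le_trdeg (k : Type*) [Field k] :
    3 ≤ Algebra.trdeg k (AlgebraicClosure (FractionRing (MvPolynomial (Fin 3) k))) := by
  have h1 : AlgebraicIndependent k (fun i : Fin 3 => IsScalarTower.toAlgHom k
      (MvPolynomial (Fin 3) k) (AlgebraicClosure (FractionRing (MvPolynomial (Fin 3) k)))
      (MvPolynomial.X i)) := by
    refine (MvPolynomial.algebraicIndependent_X (Fin 3) k).map' ?_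
    exact inj_BΩ k
  have h2 := h1.lift_cardinalMk_le_trdeg
  simpa using h2

theorem contra_of_root {k Ω : Type*} [Field k] [Field Ω] [Algebra k Ω]
    [Algebra (MvPolynomial (Fin 3) k) Ω] [IsScalarTower k (MvPolynomial (Fin 3) k) Ω]
    (hinj : Function.Injective (algebraMap (MvPolynomial (Fin 3) k) Ω))
    (hgens : ∀ M : IntermediateField k Ω, (∀ i, IsAlgebraic M
      (algebraMap (MvPolynomial (Fin 3) k) Ω (MvPolynomial.X i))) → Algebra.IsAlgebraic M Ω)
    (htrdeg : 3 ≤ Algebra.trdeg k Ω)
    (e : ℕ → ℕ → ℕ → k) (l1 : k)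
    (h0 : e 0 0 0 = 0) (h1 : e 1 0 0 = 0) (h2 : e 0 1 0 = 0) (h3 : e 0 0 1 = -1)
    (ha : a0 e l1 ≠ 0)
    (hR : Irreducible (R' e l1 l1) ∧ (R' e l1 l1).natDegree = 5)
    (hla : ∃ la0 : Ω, a0 (fun i j l => algebraMap k Ω (e i j l)) la0 = 0 ∧
      b0 (fun i j l => algebraMap k Ω (e i j l)) la0 ≠ 0)
    (n : ℕ) (G : MvPolynomial (Fin 4) k) (hG : G.IsHomogeneous n)
    (hirr : Irreducible (form e)) (hnd : ¬ form e ∣ G) (t : Ω)
    (htR : aeval t (R' (eB e) (MvPolynomial.X 0) (MvPolynomial.X 1)) = 0)
    (htH : aeval t (MvPolynomial.aeval (vB e) G) = 0) : False := by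
  set g : MvPolynomial (Fin 3) k →+* Ω := algebraMap (MvPolynomial (Fin 3) k) Ω with hgdef
  have hg : ∀ c, g (MvPolynomial.C c) = algebraMap k Ω c := fun c =>
    (IsScalarTower.algebraMap_apply k (MvPolynomial (Fin 3) k) Ω c).symm
  rw [aeval_def, ← hgdef] at htR htH
  have htR0 := htR
  rw [spec_R e g hg] at htR
  rw [spec_H e g hg] at htH
  set la := g (MvPolynomial.X 0) with hla'
  set mu := g (MvPolynomial.X 1) with hmu'
  set u := g (MvPolynomial.X 2) with hu'
  set eΩ : ℕ → ℕ → ℕ → Ω := fun i j l => algebraMap k Ω (e i j l) with heΩ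
  -- t ≠ 0
  have ht : t ≠ 0 := by
    intro ht0
    rw [ht0, eval₂_at_zero] at htR0
    have hc : (R' (eB e) (MvPolynomial.X 0) (MvPolynomial.X 1)).coeff 0 = 0 := by
      rwa [map_eq_zero_iff _ hinj] at htR0
    have hsp := spec_R e ((algebraMap k (AlgebraicClosure k)).comp
      (MvPolynomial.eval (fun _ : Fin 3 => l1))) (by
        intro c
        show algebraMap k (AlgebraicClosure k) (MvPolynomial.eval _ (MvPolynomial.C c)) = _
        rw [MvPolynomial.eval_C]) (0 : AlgebraicClosure k)
    rw [eval₂_at_zero, hc, map_zero] at hsp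
    have hX : ∀ i : Fin 3, ((algebraMap k (AlgebraicClosure k)).comp
      (MvPolynomial.eval (fun _ : Fin 3 => l1))) (MvPolynomial.X i) =
        algebraMap k (AlgebraicClosure k) l1 := by
      intro i
      show algebraMap k (AlgebraicClosure k) (MvPolynomial.eval _ (MvPolynomial.X i)) = _
      rw [MvPolynomial.eval_X]
    rw [hX, hX, map_R', eval_map] at hsp
    exact (root_facts _ hR.1 hR.2 (0 : AlgebraicClosure k)
      hsp.symm).1 rfl
  have hA : a0 eΩ la ≠ 0 := by
    rw [heΩ, hla', ← spec_a0 e g hg, Ne, map_eq_zero_iff _ hinj]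
    intro hz
    have hsp := spec_a0 e (MvPolynomial.eval (fun _ : Fin 3 => l1)) (by
        intro c
        rw [MvPolynomial.eval_C]; rfl)
    rw [hz, map_zero, MvPolynomial.eval_X] at hsp
    exact ha hsp.symm
  have hu : u ≠ 0 := by
    rw [hu', Ne, map_eq_zero_iff _ hinj]
    exact MvPolynomial.X_ne_zero _
  set z : Ω := a0 eΩ la ^ 3 * t with hz
  have hz0 : z ≠ 0 := mul_ne_zero (pow_ne_zero 3 hA) ht
  set v : Fin 4 → Ω := ptS eΩ la mu t with hv
  have hFv : MvPolynomial.aeval v (form e) = 0 := by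
    have h4 := eval_ptS eΩ la mu t (by rw [heΩ]; simp [h0]) (by rw [heΩ]; simp [h1])
      (by rw [heΩ]; simp [h2]) (by rw [heΩ]; simp [h3])
    rw [htR, mul_zero, ← hv, heΩ, map_form, MvPolynomial.eval_map] at h4
    exact h4
  set p : Fin 4 → Ω := fun i => (u * z⁻¹) * v i with hp
  have hFp : MvPolynomial.aeval p (form e) = 0 := by
    rw [hp, aeval_mul_of_homog _ 5 (form_isHomogeneous e), hFv, mul_zero]
  have hGp : MvPolynomial.aeval p G = 0 := by
    rw [hp, aeval_mul_of_homog _ n hG, htH, mul_zero]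
  have hp0 : p 0 = u * z⁻¹ * (D' eΩ la mu).eval t := rfl
  have hp1 : p 1 = u * z⁻¹ * (a0 eΩ la ^ 3 * t * (la + mu * t)) := rfl
  have hp2 : p 2 = u * z⁻¹ * (a0 eΩ la ^ 3 * t) := rfl
  have hp3 : p 3 = u * z⁻¹ * (a0 eΩ la ^ 3 * t * t) := rfl
  rw [← hz] at hp1 hp2 hp3
  have hp2' : p 2 = u := by rw [hp2]; field_simp
  have hp1' : p 1 = u * (la + mu * t) := by rw [hp1]; field_simp
  have hp3' : p 3 = u * t := by rw [hp3]; field_simp
  set M := IntermediateField.adjoin k (Set.range p) with hM
  have hpM : ∀ i, p i ∈ M := fun i => IntermediateField.subset_adjoin _ _ ⟨i, rfl⟩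
  have huM : u ∈ M := hp2' ▸ hpM 2
  have htM : t ∈ M := by
    have : t = p 3 / p 2 := by rw [hp3', hp2']; field_simp
    rw [this]; exact div_mem (hpM 3) (hpM 2)
  have hξM : la + mu * t ∈ M := by
    have : la + mu * t = p 1 / p 2 := by rw [hp1', hp2']; field_simp
    rw [this]; exact div_mem (hpM 1) (hpM 2)
  have hδM : (D' eΩ la mu).eval t / z ∈ M := by
    have : (D' eΩ la mu).eval t / z = p 0 / p 2 := by rw [hp0, hp2']; field_simp
    rw [this]; exact div_mem (hpM 0) (hpM 2)
  obtain ⟨la0, hla0, hla0b⟩ := hla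
  have hlaalg : IsAlgebraic M la := alg_of_point e la mu t ((D' eΩ la mu).eval t / z) ht
    (by
      show (D' eΩ la mu).eval t = _
      rw [div_mul_eq_mul_div, div_mul_eq_mul_div, eq_div_iff hz0, hz]
      ring) la0 hla0 hla0b M hξM htM hδM
  have hmem : ∀ x ∈ M, IsAlgebraic M x := fun x hx =>
    isAlgebraic_algebraMap (⟨x, hx⟩ : M)
  have hmualg : IsAlgebraic M mu := by
    have : mu = (la + mu * t - la) * t⁻¹ := by field_simp; ring
    rw [this]
    exact ((hmem _ hξM).sub hlaalg).mul (hmem _ (inv_mem htM))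
  have halg : Algebra.IsAlgebraic M Ω := hgens M fun i => by
    fin_cases i
    · exact hlaalg
    · exact hmualg
    · exact hmem _ huM
  have halg2 : Algebra.IsAlgebraic (Algebra.adjoin k (Set.range p)) Ω :=
    IntermediateField.isAlgebraic_adjoin_iff_top.1 halg
  exact false_of_trdeg p (form e) G hirr hFp hGp hnd htrdeg

theorem dense_of_generic {k : Type*} [Field k] (e : ℕ → ℕ → ℕ → k) (U : Set k) (hU : U.Infinite)
    (h0 : e 0 0 0 = 0) (h1 : e 1 0 0 = 0) (h2 : e 0 1 0 = 0) (h3 : e 0 0 1 = -1)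
    (ha : ∀ l ∈ U, a0 e l ≠ 0)
    (hR : ∀ l ∈ U, ∀ m ∈ U, Irreducible (R' e l m) ∧ (R' e l m).natDegree = 5)
    (hla : ∃ la0 : AlgebraicClosure (FractionRing (MvPolynomial (Fin 3) k)),
      a0 (fun i j l => algebraMap k _ (e i j l)) la0 = 0 ∧
      b0 (fun i j l => algebraMap k _ (e i j l)) la0 ≠ 0) :
    DenseOffLines k (form e) 5 := by
  classical
  obtain ⟨l1, hl1⟩ := hU.nonempty
  have hirr : Irreducible (form e) :=
    form_irreducible e l1 l1 h0 h1 h2 h3 (ha l1 hl1) (hR l1 hl1 l1 hl1).1 (hR l1 hl1 l1 hl1).2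
  intro n G hG hw
  obtain ⟨w, -, hFw, hGw⟩ := hw
  have hnd : ¬ form e ∣ G := by
    rintro ⟨q, rfl⟩
    rw [map_mul, hFw, zero_mul] at hGw
    exact hGw rfl
  by_contra hcon
  push Not at hcon
  have hvan : ∀ l ∈ U, ∀ m ∈ U, ∀ t : AlgebraicClosure k, aeval t (R' e l m) = 0 →
      MvPolynomial.aeval (pt e l m t) G = 0 := by
    intro l hl m hm t ht
    have hg := pt_good e l m h0 h1 h2 h3 (ha l hl) (hR l hl m hm).1 (hR l hl m hm).2 t ht
    exact hcon _ hg.1 hg.2
  have hroot := exists_common_root (R' (eB e) (MvPolynomial.X 0) (MvPolynomial.X 1))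
    (MvPolynomial.aeval (vB e) G) (by
      intro P Q s hs heq
      have hex : ∃ x : Fin 3 → k, (∀ i, x i ∈ U) ∧ MvPolynomial.eval x s ≠ 0 := by
        by_contra hno
        push Not at hno
        apply hs
        refine MvPolynomial.funext_set (fun _ => U) (fun _ => hU) fun x hx => ?_
        rw [map_zero]
        exact hno x fun i => hx i trivial
      obtain ⟨x, hx, hsx⟩ := hex
      obtain ⟨t, ht⟩ := IsAlgClosed.exists_aeval_eq_zero (AlgebraicClosure k) (R' e (x 0) (x 1))
        (by
          have hd := (hR _ (hx 0) _ (hx 1)).2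
          intro hd0
          rw [natDegree_eq_of_degree_eq_some hd0] at hd
          norm_num at hd)
      let g : MvPolynomial (Fin 3) k →+* AlgebraicClosure k :=
        (algebraMap k (AlgebraicClosure k)).comp (MvPolynomial.eval x)
      have hg : ∀ c, g (MvPolynomial.C c) = algebraMap k (AlgebraicClosure k) c := by
        intro c
        show algebraMap k (AlgebraicClosure k) (MvPolynomial.eval x (MvPolynomial.C c)) = _
        rw [MvPolynomial.eval_C]
      have hgX : ∀ i, g (MvPolynomial.X i) = algebraMap k (AlgebraicClosure k) (x i) := by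
        intro i
        show algebraMap k (AlgebraicClosure k) (MvPolynomial.eval x (MvPolynomial.X i)) = _
        rw [MvPolynomial.eval_X]
      have heq' := congrArg (fun p => eval₂ g t p) heq
      simp only [eval₂_add, eval₂_mul, eval₂_C] at heq'
      rw [spec_R e g hg, spec_H e g hg, hgX, hgX] at heq'
      have hz1 : (R' (fun i j l => algebraMap k (AlgebraicClosure k) (e i j l))
          (algebraMap k (AlgebraicClosure k) (x 0))
          (algebraMap k (AlgebraicClosure k) (x 1))).eval t = 0 := by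
        rw [map_R', eval_map]; exact ht
      have hz2 : MvPolynomial.aeval (ptS (fun i j l => algebraMap k (AlgebraicClosure k) (e i j l))
          (algebraMap k (AlgebraicClosure k) (x 0))
          (algebraMap k (AlgebraicClosure k) (x 1)) t) G = 0 := by
        have hpt : ptS (fun i j l => algebraMap k (AlgebraicClosure k) (e i j l))
          (algebraMap k (AlgebraicClosure k) (x 0))
          (algebraMap k (AlgebraicClosure k) (x 1)) t = pt e (x 0) (x 1) t := by
          unfold ptS pt
          rw [map_D', map_a0, eval_map, ← map_pow]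
          rfl
        rw [hpt]
        exact hvan _ (hx 0) _ (hx 1) t ht
      rw [hz1, hz2, mul_zero, mul_zero, add_zero] at heq'
      have : algebraMap k (AlgebraicClosure k) (MvPolynomial.eval x s) = 0 := heq'.symm
      rw [map_eq_zero_iff _ (algebraMap k (AlgebraicClosure k)).injective] at this
      exact hsx this)
  obtain ⟨t, htR, htH⟩ := hroot
  exact contra_of_root (inj_BΩ k) isAlgebraic_of_gens (three_le_trdeg k) e l1 h0 h1 h2 h3
    (ha l1 hl1) (hR l1 hl1 l1 hl1) hla n G hG hirr hnd t htR htH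

end Quintic99
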