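import Pool.Agent.H99.Quintic.Eis

/-! A quintic form in normal form with an irreducible residual quintic is irreducible. -/

namespace Quintic99

open Polynomial

variable {k : Type*} [Field k]

theorem form_isHomogeneous {S : Type*} [CommRing S] (e : ℕ → ℕ → ℕ → S) :
    (form e).IsHomogeneous 5 := by
  unfold form
  refine MvPolynomial.IsHomogeneous.sum _ _ _ fun d hd => ?_
  refine MvPolynomial.IsHomogeneous.sum _ _ _ fun i hi => ?_
  refine MvPolynomial.IsHomogeneous.sum _ _ _ fun l hl => ?_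
  rw [Finset.mem_range] at hd hi hl
  refine MvPolynomial.IsHomogeneous.C_mul ?_ _
  have h := (((MvPolynomial.isHomogeneous_X_pow (R := S) (0 : Fin 4) (5 - d)).mul
    (MvPolynomial.isHomogeneous_X_pow (R := S) (1 : Fin 4) i)).mul
    (MvPolynomial.isHomogeneous_X_pow (R := S) (2 : Fin 4) (d - i - l))).mul
    (MvPolynomial.isHomogeneous_X_pow (R := S) (3 : Fin 4) l)
  have hdeg : 5 - d + i + (d - i - l) + l = 5 := by omega
  rwa [hdeg] at h

/-- the conic as a tuple of polynomials -/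
noncomputable def cv (e : ℕ → ℕ → ℕ → k) (l m : k) : Fin 4 → k[X] :=
  ![D' e l m, C (a0 e l ^ 3) * X * (C l + C m * X), C (a0 e l ^ 3) * X, C (a0 e l ^ 3) * X * X]

theorem natDegree_cv_le (e : ℕ → ℕ → ℕ → k) (l m : k) (i : Fin 4) :
    (cv e l m i).natDegree ≤ 2 := by
  fin_cases i
  · exact natDegree_D'_le e l m
  · show (C (a0 e l ^ 3) * X * (C l + C m * X)).natDegree ≤ 2
    compute_degree
  · show (C (a0 e l ^ 3) * X).natDegree ≤ 2
    compute_degree
    norm_num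
  · show (C (a0 e l ^ 3) * X * X).natDegree ≤ 2
    compute_degree

theorem eval_cv_zero (e : ℕ → ℕ → ℕ → k) (l m : k) (G : MvPolynomial (Fin 4) k) :
    (MvPolynomial.aeval (cv e l m) G).eval 0 =
      MvPolynomial.eval (![a0 e l ^ 4, 0, 0, 0] : Fin 4 → k) G := by
  have : ∀ (v : Fin 4 → k[X]) (F : MvPolynomial (Fin 4) k),
      aeval (0 : k) (MvPolynomial.aeval v F) =
        MvPolynomial.aeval (fun i => aeval (0 : k) (v i)) F := by
    intro v F
    rw [← AlgHom.comp_apply, MvPolynomial.comp_aeval]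
  have h := this (cv e l m) G
  rw [coe_aeval_eq_eval] at h
  rw [h, ← MvPolynomial.aeval_eq_eval]
  have hv : (fun i => eval (0 : k) (cv e l m i)) = ![a0 e l ^ 4, 0, 0, 0] := by
    funext i
    fin_cases i <;> simp [cv, D']
  rw [hv]

theorem eval_line_zero (e : ℕ → ℕ → ℕ → k) (l : k) (G : MvPolynomial (Fin 4) k) :
    (MvPolynomial.aeval (![C (a0 e l ^ 4), X * 0, X, X * 1] : Fin 4 → k[X]) G).eval 0 =
      MvPolynomial.eval (![a0 e l ^ 4, 0, 0, 0] : Fin 4 → k) G := by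
  have : ∀ (v : Fin 4 → k[X]) (F : MvPolynomial (Fin 4) k),
      aeval (0 : k) (MvPolynomial.aeval v F) =
        MvPolynomial.aeval (fun i => aeval (0 : k) (v i)) F := by
    intro v F
    rw [← AlgHom.comp_apply, MvPolynomial.comp_aeval]
  have h := this (![C (a0 e l ^ 4), X * 0, X, X * 1] : Fin 4 → k[X]) G
  rw [coe_aeval_eq_eval] at h
  rw [h, ← MvPolynomial.aeval_eq_eval]
  have hv : (fun i => eval (0 : k) ((![C (a0 e l ^ 4), X * 0, X, X * 1] : Fin 4 → k[X]) i))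
      = ![a0 e l ^ 4, 0, 0, 0] := by
    funext i
    fin_cases i <;> simp
  rw [hv]

theorem not_both (e : ℕ → ℕ → ℕ → k) (l : k) (h0 : e 0 0 0 = 0) (h1 : e 1 0 0 = 0)
    (h2 : e 0 1 0 = 0) (h3 : e 0 0 1 = -1) (ha : a0 e l ≠ 0) (G H : MvPolynomial (Fin 4) k)
    (hGH : form e = G * H)
    (hG : MvPolynomial.eval (![a0 e l ^ 4, 0, 0, 0] : Fin 4 → k) G = 0)
    (hH : MvPolynomial.eval (![a0 e l ^ 4, 0, 0, 0] : Fin 4 → k) H = 0) : False := by
  set v : Fin 4 → k[X] := ![C (a0 e l ^ 4), X * 0, X, X * 1] with hv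
  have hGd : X ∣ MvPolynomial.aeval v G := by
    rw [X_dvd_iff, coeff_zero_eq_eval_zero, eval_line_zero, hG]
  have hHd : X ∣ MvPolynomial.aeval v H := by
    rw [X_dvd_iff, coeff_zero_eq_eval_zero, eval_line_zero, hH]
  have h4 : X ^ 2 ∣ MvPolynomial.aeval v (form e) := by
    rw [hGH, map_mul, pow_two]; exact mul_dvd_mul hGd hHd
  have h5 := aeval_form (B := k[X]) e (C (a0 e l ^ 4)) X 0 1
  rw [← hv] at h5
  rw [h5, Finset.sum_range_succ', Finset.sum_range_succ'] at h4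
  have h6 : (X : k[X]) ^ 2 ∣ ∑ d ∈ Finset.range 4, (C (a0 e l ^ 4)) ^ (5 - (d + 1 + 1)) *
      X ^ (d + 1 + 1) *
        ∑ i ∈ Finset.range (d + 1 + 1 + 1), ∑ l ∈ Finset.range (d + 1 + 1 + 1 - i),
          algebraMap k k[X] (e i (d + 1 + 1 - i - l) l) * (0 ^ i * 1 ^ l) := by
    refine Finset.dvd_sum fun d _ => ?_
    refine Dvd.dvd.mul_right (Dvd.dvd.mul_left ?_ _) _
    exact pow_dvd_pow _ (by omega)
  rw [add_assoc, dvd_add_right h6] at h4
  simp only [Finset.sum_range_succ, Finset.sum_range_zero, zero_add, Nat.sub_zero, h0, h1, h2, h3,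
    Nat.reduceSub, Nat.reduceAdd, map_zero, zero_mul, mul_zero, add_zero, pow_zero, mul_one,
    pow_one, map_neg, map_one, one_mul, sub_self] at h4
  rw [X_pow_dvd_iff] at h4
  have h7 := h4 1 (by norm_num)
  simp only [mul_neg, mul_one, coeff_neg, ← C_pow, coeff_C_mul, coeff_X_one, neg_eq_zero] at h7
  exact (pow_ne_zero _ (pow_ne_zero _ ha)) h7

theorem form_ne_zero (e : ℕ → ℕ → ℕ → k) (l m : k) (h0 : e 0 0 0 = 0) (h1 : e 1 0 0 = 0)
    (h2 : e 0 1 0 = 0) (h3 : e 0 0 1 = -1) (ha : a0 e l ≠ 0) (hR : R' e l m ≠ 0) :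
    form e ≠ 0 := by
  intro h
  have := aeval_conic e l m h0 h1 h2 h3
  rw [h, map_zero] at this
  have h4 : C (a0 e l ^ 3) * X ^ 5 * R' e l m ≠ 0 :=
    mul_ne_zero (mul_ne_zero (C_ne_zero.2 (pow_ne_zero _ ha)) (pow_ne_zero _ X_ne_zero)) hR
  exact h4 this.symm

theorem irred_aux (e : ℕ → ℕ → ℕ → k) (l m : k) (h0 : e 0 0 0 = 0) (h1 : e 1 0 0 = 0)
    (h2 : e 0 1 0 = 0) (h3 : e 0 0 1 = -1) (ha : a0 e l ≠ 0) (hR : Irreducible (R' e l m))
    (h5 : (R' e l m).natDegree = 5) (G H : MvPolynomial (Fin 4) k)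
    (hGH : form e = G * H) (hG : G.totalDegree ≠ 0) (hH : H.totalDegree ≠ 0)
    (hdvd : R' e l m ∣ MvPolynomial.aeval (cv e l m) G) : False := by
  have hF0 : form e ≠ 0 := form_ne_zero e l m h0 h1 h2 h3 ha hR.ne_zero
  have hG0 : G ≠ 0 := by rintro rfl; simp at hGH; exact hF0 hGH
  have hH0 : H ≠ 0 := by rintro rfl; simp at hGH; exact hF0 hGH
  have htd : G.totalDegree + H.totalDegree = 5 := by
    rw [← MvPolynomial.totalDegree_mul_of_isDomain hG0 hH0, ← hGH]
    exact (form_isHomogeneous e).totalDegree hF0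
  have hprod : MvPolynomial.aeval (cv e l m) G * MvPolynomial.aeval (cv e l m) H =
      C (a0 e l ^ 3) * X ^ 5 * R' e l m := by
    rw [← map_mul, ← hGH]
    exact aeval_conic e l m h0 h1 h2 h3
  obtain ⟨g', hg'⟩ := hdvd
  have hR0 := hR.ne_zero
  have hA : a0 e l ^ 3 ≠ 0 := pow_ne_zero _ ha
  have hgh : g' * MvPolynomial.aeval (cv e l m) H = C (a0 e l ^ 3) * X ^ 5 := by
    apply mul_left_cancel₀ hR0
    rw [← mul_assoc, ← hg', hprod]; ring
  have hr0 : C (a0 e l ^ 3) * X ^ 5 ≠ 0 := mul_ne_zero (C_ne_zero.2 hA) (pow_ne_zero _ X_ne_zero)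
  have hg'0 : g' ≠ 0 := by rintro rfl; rw [zero_mul] at hgh; exact hr0 hgh.symm
  have hh0 : MvPolynomial.aeval (cv e l m) H ≠ 0 := by
    intro h; rw [h, mul_zero] at hgh; exact hr0 hgh.symm
  have hdeg : g'.natDegree + (MvPolynomial.aeval (cv e l m) H).natDegree = 5 := by
    rw [← natDegree_mul hg'0 hh0, hgh, natDegree_C_mul hA, natDegree_X_pow]
  have hdG : (MvPolynomial.aeval (cv e l m) G).natDegree ≤ G.totalDegree * 2 :=
    MvPolynomial.aeval_natDegree_le G le_rfl _ (natDegree_cv_le e l m)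
  have hdH : (MvPolynomial.aeval (cv e l m) H).natDegree ≤ H.totalDegree * 2 :=
    MvPolynomial.aeval_natDegree_le H le_rfl _ (natDegree_cv_le e l m)
  have hdG' : (MvPolynomial.aeval (cv e l m) G).natDegree = 5 + g'.natDegree := by
    rw [hg', natDegree_mul hR0 hg'0, h5]
  have hX : ∀ q q' : k[X], q * q' = C (a0 e l ^ 3) * X ^ 5 → q.natDegree ≠ 0 → X ∣ q := by
    intro q q' hq hq0
    have hq1 : q ∣ X ^ 5 := by
      refine ⟨C ((a0 e l ^ 3)⁻¹) * q', ?_⟩
      rw [mul_left_comm, hq, ← mul_assoc, ← C_mul, inv_mul_cancel₀ hA, C_1, one_mul]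
    obtain ⟨i, -, hi⟩ := (dvd_prime_pow prime_X 5).1 hq1
    rcases Nat.eq_zero_or_pos i with rfl | hi0
    · rw [pow_zero, associated_one_iff_isUnit] at hi
      exact absurd (natDegree_eq_zero_of_isUnit hi) hq0
    · exact (dvd_pow_self X hi0.ne').trans hi.symm.dvd
  have hXg : X ∣ g' := hX g' _ hgh (by omega)
  have hXh : X ∣ MvPolynomial.aeval (cv e l m) H :=
    hX _ g' (by rw [mul_comm]; exact hgh) (by omega)
  refine not_both e l h0 h1 h2 h3 ha G H hGH ?_ ?_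
  · rw [← eval_cv_zero e l m, ← coeff_zero_eq_eval_zero, ← X_dvd_iff, hg']
    exact hXg.mul_left _
  · rw [← eval_cv_zero e l m, ← coeff_zero_eq_eval_zero, ← X_dvd_iff]
    exact hXh

theorem form_irreducible (e : ℕ → ℕ → ℕ → k) (l m : k) (h0 : e 0 0 0 = 0) (h1 : e 1 0 0 = 0)
    (h2 : e 0 1 0 = 0) (h3 : e 0 0 1 = -1) (ha : a0 e l ≠ 0) (hR : Irreducible (R' e l m))
    (h5 : (R' e l m).natDegree = 5) : Irreducible (form e) := by
  have hF0 : form e ≠ 0 := form_ne_zero e l m h0 h1 h2 h3 ha hR.ne_zero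
  have hunit : ∀ G : MvPolynomial (Fin 4) k, G ≠ 0 → G.totalDegree = 0 → IsUnit G := by
    intro G hG0 hG
    rw [MvPolynomial.totalDegree_eq_zero_iff_eq_C] at hG
    rw [hG] at hG0 ⊢
    refine IsUnit.map MvPolynomial.C (IsUnit.mk0 _ ?_)
    intro h; rw [h, map_zero] at hG0; exact hG0 rfl
  constructor
  · intro hu
    obtain ⟨c, hc, hcF⟩ := MvPolynomial.isUnit_iff_eq_C_of_isReduced.1 hu
    have h := (form_isHomogeneous e).totalDegree hF0
    rw [hcF, MvPolynomial.totalDegree_C] at h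
    norm_num at h
  · intro G H hGH
    by_contra hcon
    rw [not_or] at hcon
    have hG0 : G ≠ 0 := by rintro rfl; simp at hGH; exact hF0 hGH
    have hH0 : H ≠ 0 := by rintro rfl; simp at hGH; exact hF0 hGH
    have hG : G.totalDegree ≠ 0 := fun h => hcon.1 (hunit G hG0 h)
    have hH : H.totalDegree ≠ 0 := fun h => hcon.2 (hunit H hH0 h)
    have hprod : MvPolynomial.aeval (cv e l m) G * MvPolynomial.aeval (cv e l m) H =
        C (a0 e l ^ 3) * X ^ 5 * R' e l m := by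
      rw [← map_mul, ← hGH]
      exact aeval_conic e l m h0 h1 h2 h3
    have hd : R' e l m ∣ MvPolynomial.aeval (cv e l m) G * MvPolynomial.aeval (cv e l m) H := by
      rw [hprod]; exact dvd_mul_left _ _
    rcases hR.prime.dvd_or_dvd hd with h | h
    · exact irred_aux e l m h0 h1 h2 h3 ha hR h5 G H hGH hG hH h
    · exact irred_aux e l m h0 h1 h2 h3 ha hR h5 H G (by rw [hGH, mul_comm]) hH hG h

end Quintic99
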