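import Pool.Agent.H99.Quintic.Defs
import Pool.Agent.H99.Quintic.Conic2

/-! The points cut out by an irreducible residual quintic are points of degree five which are not
collinear with their conjugates. -/

namespace Quintic99

open Polynomial

section

variable {k : Type*} [Field k]

/-- the point with parameter `t` on the osculating conic -/
noncomputable def pt {B : Type*} [CommRing B] [Algebra k B] (e : ℕ → ℕ → ℕ → k) (l m : k) (t : B) :
    Fin 4 → B :=
  ![aeval t (D' e l m), algebraMap k B (a0 e l ^ 3) * t * (algebraMap k B l + algebraMap k B m * t),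
    algebraMap k B (a0 e l ^ 3) * t, algebraMap k B (a0 e l ^ 3) * t * t]

theorem aeval_pt {B : Type*} [CommRing B] [Algebra k B] (e : ℕ → ℕ → ℕ → k) (l m : k) (t : B)
    (h0 : e 0 0 0 = 0) (h1 : e 1 0 0 = 0) (h2 : e 0 1 0 = 0) (h3 : e 0 0 1 = -1)
    (ht : aeval t (R' e l m) = 0) : MvPolynomial.aeval (pt e l m t) (form e) = 0 := by
  have h := congrArg (fun p => aeval t p) (aeval_conic e l m h0 h1 h2 h3)
  simp only [map_mul, ht, mul_zero] at h
  rw [← h]
  have : ∀ (v : Fin 4 → k[X]) (F : MvPolynomial (Fin 4) k),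
      aeval t (MvPolynomial.aeval v F) = MvPolynomial.aeval (fun i => aeval t (v i)) F := by
    intro v F
    rw [← AlgHom.comp_apply, MvPolynomial.comp_aeval]
  rw [this]
  have hv : (fun i => aeval t ((![D' e l m, C (a0 e l ^ 3) * X * (C l + C m * X),
      C (a0 e l ^ 3) * X, C (a0 e l ^ 3) * X * X] : Fin 4 → k[X]) i)) = pt e l m t := by
    funext i
    fin_cases i <;> simp [pt]
  rw [hv]

theorem root_facts (R : k[X]) (hR : Irreducible R) (h5 : R.natDegree = 5)
    (t : AlgebraicClosure k) (ht : aeval t R = 0) :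
    t ≠ 0 ∧ Module.finrank k (IntermediateField.adjoin k {t}) = 5 ∧
    ∀ p : k[X], aeval t p = 0 → p.natDegree < 5 → p = 0 := by
  have hmin : (minpoly k t).natDegree = 5 := by
    rw [← minpoly.eq_of_irreducible hR ht, natDegree_mul_C, h5]
    exact inv_ne_zero (leadingCoeff_ne_zero.2 hR.ne_zero)
  have hint : IsIntegral k t := Algebra.IsIntegral.isIntegral t
  have hsmall : ∀ p : k[X], aeval t p = 0 → p.natDegree < 5 → p = 0 := by
    intro p hp hd
    by_contra h0
    have := natDegree_le_of_dvd (minpoly.dvd k t hp) h0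
    omega
  refine ⟨?_, ?_, hsmall⟩
  · intro h
    have := hsmall X (by rw [aeval_X, h]) (by rw [natDegree_X]; norm_num)
    exact X_ne_zero this
  · rw [IntermediateField.adjoin.finrank hint, hmin]

theorem residueField_pt (e : ℕ → ℕ → ℕ → k) (l m : k) (ha : a0 e l ≠ 0)
    (t : AlgebraicClosure k) (ht : t ≠ 0) :
    residueField k (pt e l m t) = IntermediateField.adjoin k {t} := by
  have haΩ : algebraMap k (AlgebraicClosure k) (a0 e l ^ 3) ≠ 0 := by
    rw [Ne, map_eq_zero_iff _ (algebraMap k _).injective]; exact pow_ne_zero _ ha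
  apply le_antisymm
  · rw [residueField, IntermediateField.adjoin_le_iff]
    rintro x ⟨i, j, hj, rfl⟩
    have hmem : ∀ i, pt e l m t i ∈ IntermediateField.adjoin k {t} := by
      have ht' : t ∈ IntermediateField.adjoin k {t} :=
        IntermediateField.mem_adjoin_simple_self k t
      have hc : ∀ c : k, algebraMap k (AlgebraicClosure k) c ∈ IntermediateField.adjoin k {t} :=
        fun c => (IntermediateField.adjoin k {t}).algebraMap_mem c
      intro i
      fin_cases i
      · simp only [pt]
        show aeval t (D' e l m) ∈ IntermediateField.adjoin k {t}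
        unfold D'
        simp only [map_add, map_mul, aeval_C, aeval_X, map_pow]
        exact add_mem (add_mem (pow_mem (hc _) _) (mul_mem (hc _) ht'))
          (mul_mem (hc _) (pow_mem ht' _))
      · simp only [pt]
        exact mul_mem (mul_mem (hc _) ht') (add_mem (hc _) (mul_mem (hc _) ht'))
      · simp only [pt]
        exact mul_mem (hc _) ht'
      · simp only [pt]
        exact mul_mem (mul_mem (hc _) ht') ht'
    exact div_mem (hmem i) (hmem j)
  · rw [IntermediateField.adjoin_le_iff]
    rintro x rfl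
    refine IntermediateField.subset_adjoin _ _ ⟨3, 2, ?_, ?_⟩
    · simp only [pt]
      exact mul_ne_zero haΩ ht
    · simp only [pt]
      show x = algebraMap k (AlgebraicClosure k) (a0 e l ^ 3) * x * x /
        (algebraMap k (AlgebraicClosure k) (a0 e l ^ 3) * x)
      field_simp

theorem quad_eq_zero {q0 q1 q2 : k} (h : (C q0 + C q1 * X + C q2 * X ^ 2 : k[X]) = 0) :
    q0 = 0 ∧ q1 = 0 ∧ q2 = 0 := by
  refine ⟨?_, ?_, ?_⟩
  · have := congrArg (fun p => coeff p 0) h
    simpa [coeff_X, coeff_C, coeff_X_pow] using this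
  · have := congrArg (fun p => coeff p 1) h
    simpa [coeff_X, coeff_C, coeff_X_pow] using this
  · have := congrArg (fun p => coeff p 2) h
    simpa [coeff_X, coeff_C, coeff_X_pow] using this

theorem not_arises (e : ℕ → ℕ → ℕ → k) (l m : k) (ha : a0 e l ≠ 0)
    (F : MvPolynomial (Fin 4) k) (t : AlgebraicClosure k)
    (hsmall : ∀ p : k[X], aeval t p = 0 → p.natDegree < 5 → p = 0) :
    ¬ ArisesFromLine k F (pt e l m t) := by
  have key : ∀ a : Fin 4 → k, OnPlane k a (pt e l m t) →
      a 0 = 0 ∧ a 2 = - a 1 * l ∧ a 3 = - a 1 * m := by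
    intro a hplane
    have h1 : aeval t (C (a 0) * D' e l m + C (a 1 * a0 e l ^ 3) * X * (C l + C m * X)
        + C (a 2 * a0 e l ^ 3) * X + C (a 3 * a0 e l ^ 3) * X ^ 2) = 0 := by
      rw [OnPlane, Fin.sum_univ_four] at hplane
      simp only [pt, Matrix.cons_val_zero, Matrix.cons_val_one, Matrix.cons_val] at hplane
      simp only [map_add, map_mul, map_pow, aeval_X, aeval_C] at hplane ⊢
      rw [← hplane]; ring
    have h2 := hsmall _ h1 (by
      have : (C (a 0) * D' e l m + C (a 1 * a0 e l ^ 3) * X * (C l + C m * X)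
        + C (a 2 * a0 e l ^ 3) * X + C (a 3 * a0 e l ^ 3) * X ^ 2).natDegree ≤ 2 := by
        unfold D'; compute_degree
      omega)
    have hexp : (C (a 0) * D' e l m + C (a 1 * a0 e l ^ 3) * X * (C l + C m * X)
        + C (a 2 * a0 e l ^ 3) * X + C (a 3 * a0 e l ^ 3) * X ^ 2 : k[X]) =
        C (a 0 * a0 e l ^ 4) +
        C (a 0 * be e l m + a 1 * a0 e l ^ 3 * l + a 2 * a0 e l ^ 3) * X +
        C (a 0 * de e l m + a 1 * a0 e l ^ 3 * m + a 3 * a0 e l ^ 3) * X ^ 2 := by
      unfold D'
      simp only [map_add, map_mul, map_pow]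
      ring
    rw [hexp] at h2
    obtain ⟨c0, c1, c2⟩ := quad_eq_zero h2
    have e0 : a 0 = 0 := by
      rcases mul_eq_zero.1 c0 with h | h
      · exact h
      · exact absurd h (pow_ne_zero _ ha)
    rw [e0] at c1 c2
    have hA3 : a0 e l ^ 3 ≠ 0 := pow_ne_zero _ ha
    refine ⟨e0, ?_, ?_⟩
    · apply mul_left_cancel₀ hA3
      linear_combination c1
    · apply mul_left_cancel₀ hA3
      linear_combination c2
  rintro ⟨a, b, hli, hav, hbv, -⟩
  obtain ⟨x0, x2, x3⟩ := key a hav
  obtain ⟨y0, y2, y3⟩ := key b hbv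
  rw [LinearIndependent.pair_iff] at hli
  have h1 := hli (b 1) (-a 1) (by
    funext i
    fin_cases i
    · simp [x0, y0]
    · simp; ring
    · simp [x2, y2]; ring
    · simp [x3, y3]; ring)
  have a1 : a 1 = 0 := by simpa using h1.2
  have ha0 : a = 0 := by
    funext i
    fin_cases i
    · simpa using x0
    · simpa using a1
    · simpa [a1] using x2
    · simpa [a1] using x3
  have h2 := hli 1 0 (by simp [ha0])
  exact one_ne_zero h2.1

theorem pt_good (e : ℕ → ℕ → ℕ → k) (l m : k)
    (h0 : e 0 0 0 = 0) (h1 : e 1 0 0 = 0) (h2 : e 0 1 0 = 0) (h3 : e 0 0 1 = -1)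
    (ha : a0 e l ≠ 0) (hR : Irreducible (R' e l m)) (h5 : (R' e l m).natDegree = 5)
    (t : AlgebraicClosure k) (ht : aeval t (R' e l m) = 0) :
    IsDegreePoint k (form e) 5 (pt e l m t) ∧ ¬ ArisesFromLine k (form e) (pt e l m t) := by
  obtain ⟨ht0, hfin, hsmall⟩ := root_facts _ hR h5 t ht
  have haΩ : algebraMap k (AlgebraicClosure k) (a0 e l ^ 3) ≠ 0 := by
    rw [Ne, map_eq_zero_iff _ (algebraMap k _).injective]; exact pow_ne_zero _ ha
  refine ⟨⟨?_, aeval_pt e l m t h0 h1 h2 h3 ht, ?_⟩, not_arises e l m ha _ t hsmall⟩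
  · intro h
    have := congrFun h 2
    simp only [pt] at this
    exact mul_ne_zero haΩ ht0 this
  · rw [residueField_pt e l m ha t ht0]; exact hfin

end

end Quintic99
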