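import Pool.Agent.H99.Quintic.Smooth

/-! A prime of a number field above `7`, with a compatible valuation ring of an algebraic closure. -/

namespace Quintic99

open NumberField

variable (k : Type*) [Field k] [NumberField k]

theorem exists_valuationSubring : ∃ W : ValuationSubring (AlgebraicClosure k),
    (7 : AlgebraicClosure k) ∈ W.nonunits := by
  let A : Subring (AlgebraicClosure k) := (Int.castRingHom (AlgebraicClosure k)).range
  have h7 : (7 : AlgebraicClosure k) ∈ A := ⟨7, by simp⟩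
  let I : Ideal A := Ideal.span {(⟨7, h7⟩ : A)}
  have hI : I ≠ ⊤ := by
    intro h
    have h1 : (1 : A) ∈ I := by rw [h]; trivial
    obtain ⟨⟨y, n, hn⟩, hy⟩ := Ideal.mem_span_singleton'.1 h1
    have h2 : (y * 7 : AlgebraicClosure k) = 1 := congrArg Subtype.val hy
    rw [← hn] at h2
    have h3 : ((n * 7 : ℤ) : AlgebraicClosure k) = ((1 : ℤ) : AlgebraicClosure k) := by
      push_cast
      simpa using h2
    have h4 : n * 7 = 1 := Int.cast_injective h3
    omega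
  obtain ⟨W, -, hW⟩ := Ideal.image_subset_nonunits_valuationSubring I hI
  exact ⟨W, hW ⟨⟨7, h7⟩, Ideal.subset_span rfl, rfl⟩⟩

theorem exists_lift (W : ValuationSubring (AlgebraicClosure k)) : ∃ ψ : 𝓞 k →+* W,
    ∀ x, (ψ x : AlgebraicClosure k) = algebraMap k (AlgebraicClosure k) (algebraMap (𝓞 k) k x) := by
  let f : 𝓞 k →+* AlgebraicClosure k :=
    (algebraMap k (AlgebraicClosure k)).comp (algebraMap (𝓞 k) k)
  have hf : ∀ x, f x ∈ W.toSubring := by
    intro x
    have h1 : IsIntegral ℤ (f x) := by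
      have h2 : IsIntegral ℤ (algebraMap (𝓞 k) k x) := RingOfIntegers.isIntegral_coe x
      exact h2.map ((algebraMap k (AlgebraicClosure k)).toIntAlgHom)
    have h2 : IsIntegral W (f x) := by
      obtain ⟨p, hp, hpx⟩ := h1
      refine ⟨p.map (algebraMap ℤ W), hp.map _, ?_⟩
      rw [Polynomial.eval₂_map]
      have : (algebraMap W (AlgebraicClosure k)).comp (algebraMap ℤ W) =
          algebraMap ℤ (AlgebraicClosure k) := RingHom.ext_int _ _
      rw [this]; exact hpx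
    obtain ⟨y, hy⟩ := IsIntegrallyClosed.isIntegral_iff.1 h2
    rw [← hy]
    exact y.2
  exact ⟨f.codRestrict W.toSubring hf, fun x => rfl⟩

theorem exists_data : ∃ (W : ValuationSubring (AlgebraicClosure k)) (ψ : 𝓞 k →+* W)
    (𝔭 : Ideal (𝓞 k)) (π : 𝓞 k),
    (∀ x, (ψ x : AlgebraicClosure k) =
      algebraMap k (AlgebraicClosure k) (algebraMap (𝓞 k) k x)) ∧
    (7 : IsLocalRing.ResidueField W) = 0 ∧ 𝔭.IsMaximal ∧ π ∈ 𝔭 ∧ π ∉ 𝔭 ^ 2 ∧
    (∀ x ∈ 𝔭, IsLocalRing.residue W (ψ x) = 0) ∧ ((𝔭 ^ 2 : Ideal (𝓞 k)) : Set (𝓞 k)).Infinite := by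
  obtain ⟨W, hW⟩ := exists_valuationSubring k
  obtain ⟨ψ, hψ⟩ := exists_lift k W
  have h7W : (7 : W) ∈ IsLocalRing.maximalIdeal W := by
    rw [← ValuationSubring.coe_mem_nonunits_iff]
    exact hW
  let 𝔭 : Ideal (𝓞 k) := (IsLocalRing.maximalIdeal W).comap ψ
  have hprime : 𝔭.IsPrime := Ideal.comap_isPrime ψ _
  have h7 : (7 : 𝓞 k) ∈ 𝔭 := by
    show ψ 7 ∈ IsLocalRing.maximalIdeal W
    rw [map_ofNat]; exact h7W
  have h70 : (7 : 𝓞 k) ≠ 0 := by norm_num
  have hne : 𝔭 ≠ ⊥ := by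
    intro h; rw [h] at h7; exact h70 h7
  have hmax : 𝔭.IsMaximal := hprime.isMaximal hne
  obtain ⟨π, hπ, hπ2⟩ := 𝔭.exists_mem_pow_notMem_pow_succ hne hprime.ne_top 1
  refine ⟨W, ψ, 𝔭, π, hψ, ?_, hmax, by simpa using hπ, by simpa using hπ2, ?_, ?_⟩
  · have := (IsLocalRing.residue_eq_zero_iff (7 : W)).2 h7W
    rwa [map_ofNat] at this
  · intro x hx
    exact (IsLocalRing.residue_eq_zero_iff _).2 hx
  · have h49 : (49 : 𝓞 k) ∈ 𝔭 ^ 2 := by
      have : (49 : 𝓞 k) = 7 ^ 2 := by norm_num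
      rw [this]; exact Ideal.pow_mem_pow h7 2
    have hinj : Function.Injective (fun n : ℤ => (n : 𝓞 k) * 49) := by
      intro a b hab
      have h1 : (a : 𝓞 k) = b := mul_right_cancel₀ (by norm_num : (49 : 𝓞 k) ≠ 0) hab
      exact Int.cast_injective h1
    refine Set.Infinite.mono ?_ (Set.infinite_range_of_injective hinj)
    rintro x ⟨n, rfl⟩
    exact (𝔭 ^ 2).mul_mem_left _ h49

end Quintic99
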