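import Pool.Agent.H99.Quintic.Prime
import Pool.Agent.H99.Quintic.Elim

/-! A common root of the residual quintic and of a form vanishing at the constructed points. -/

namespace Quintic99

open Polynomial

theorem exists_common_root_aux {B K : Type*} [CommRing B] [IsDomain B] [Field K] [Algebra B K]
    [IsFractionRing B K] (R H : B[X])
    (h : ∀ (P Q : B[X]) (s : B), s ≠ 0 → P * R + Q * H ≠ C s) :
    ¬ IsCoprime (R.map (algebraMap B K)) (H.map (algebraMap B K)) := by
  have hinj : Function.Injective (algebraMap B K) := IsFractionRing.injective B K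
  rintro ⟨a, b, hab⟩
  obtain ⟨sa, hsa, ha⟩ := IsLocalization.integerNormalization_spec (nonZeroDivisors B) a
  obtain ⟨sb, hsb, hb⟩ := IsLocalization.integerNormalization_spec (nonZeroDivisors B) b
  set a' := IsLocalization.integerNormalization (nonZeroDivisors B) a
  set b' := IsLocalization.integerNormalization (nonZeroDivisors B) b
  apply h (C sb * a') (C sa * b') (sa * sb)
    (mul_ne_zero (nonZeroDivisors.ne_zero hsa) (nonZeroDivisors.ne_zero hsb))
  apply map_injective (algebraMap B K) hinj
  have h1 : ∀ (s : B) (p : K[X]), s • p = C (algebraMap B K s) * p := by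
    intro s p
    rw [← smul_eq_C_mul, algebraMap_smul]
  rw [h1] at ha hb
  simp only [Polynomial.map_add, Polynomial.map_mul, map_C, ha, hb, map_mul]
  linear_combination C ((algebraMap B K) sa) * C ((algebraMap B K) sb) * hab

theorem exists_common_root {B : Type*} [CommRing B] [IsDomain B] (R H : B[X])
    (h : ∀ (P Q : B[X]) (s : B), s ≠ 0 → P * R + Q * H ≠ C s) :
    ∃ t : AlgebraicClosure (FractionRing B), aeval t R = 0 ∧ aeval t H = 0 := by
  by_contra hcon
  push Not at hcon
  apply exists_common_root_aux (K := FractionRing B) R H h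
  refine (isCoprime_iff_aeval_ne_zero_of_isAlgClosed (FractionRing B)
    (AlgebraicClosure (FractionRing B)) _ _).2 ?_
  intro t
  rw [aeval_map_algebraMap, aeval_map_algebraMap]
  by_cases hR : aeval t R = 0
  · exact Or.inr (hcon t hR)
  · exact Or.inl hR

end Quintic99
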