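import Pool.Agent.H99.Quintic.Generic

/-! Smoothness and density are preserved by scaling and by linear shears. -/

namespace Quintic99

open MvPolynomial

section ring

variable {S : Type*} [CommRing S]

/-- the shear `x3 -> x3 + s1 x1 + s2 x2 + p x0` -/
noncomputable def shear (p s1 s2 : S) : Fin 4 → MvPolynomial (Fin 4) S :=
  ![X 0, X 1, X 2, X 3 + C s1 * X 1 + C s2 * X 2 + C p * X 0]

/-- the shear on points -/
def T (p s1 s2 : S) (v : Fin 4 → S) : Fin 4 → S :=
  ![v 0, v 1, v 2, v 3 + s1 * v 1 + s2 * v 2 + p * v 0]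

theorem shear_comp (p s1 s2 p' s1' s2' : S) (F : MvPolynomial (Fin 4) S) :
    aeval (shear p s1 s2) (aeval (shear p' s1' s2') F) =
      aeval (shear (p + p') (s1 + s1') (s2 + s2')) F := by
  rw [← AlgHom.comp_apply, comp_aeval]
  have : (fun i => aeval (shear p s1 s2) (shear p' s1' s2' i)) =
      shear (p + p') (s1 + s1') (s2 + s2') := by
    funext i
    fin_cases i
    · simp [shear]
    · simp [shear]
    · simp [shear]
    · simp [shear, algebraMap_eq]
      ring
  rw [this]

theorem shear_zero (F : MvPolynomial (Fin 4) S) : aeval (shear (0 : S) 0 0) F = F := by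
  have : shear (0 : S) 0 0 = X := by
    funext i
    fin_cases i <;> simp [shear]
  rw [this, aeval_X_left]; rfl

theorem T_comp (p s1 s2 p' s1' s2' : S) (v : Fin 4 → S) :
    T p s1 s2 (T p' s1' s2' v) = T (p + p') (s1 + s1') (s2 + s2') v := by
  funext i
  fin_cases i
  · rfl
  · rfl
  · rfl
  · simp [T]; ring

theorem T_zero (v : Fin 4 → S) : T 0 0 0 v = v := by
  funext i
  fin_cases i <;> simp [T]

theorem aeval_shear {K : Type*} [CommRing K] [Algebra S K] (p s1 s2 : S) (v : Fin 4 → K)
    (F : MvPolynomial (Fin 4) S) : aeval v (aeval (shear p s1 s2) F) =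
      aeval (T (algebraMap S K p) (algebraMap S K s1) (algebraMap S K s2) v) F := by
  have h : ∀ (g : Fin 4 → MvPolynomial (Fin 4) S) (F : MvPolynomial (Fin 4) S),
      aeval v (aeval g F) = aeval (fun i => aeval v (g i)) F := by
    intro g F
    have := congrArg (fun f => f F) (comp_aeval g (aeval v : MvPolynomial (Fin 4) S →ₐ[S] K))
    exact this
  rw [h]
  have : (fun i => aeval v (shear p s1 s2 i)) =
      T (algebraMap S K p) (algebraMap S K s1) (algebraMap S K s2) v := by
    funext i
    fin_cases i <;> simp [shear, T]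
  rw [this]

theorem pderiv_aeval (g : Fin 4 → MvPolynomial (Fin 4) S) (j : Fin 4)
    (F : MvPolynomial (Fin 4) S) :
    pderiv j (aeval g F) = ∑ i, aeval g (pderiv i F) * pderiv j (g i) := by
  induction F using MvPolynomial.induction_on with
  | C a => simp [algebraMap_eq]
  | add p q hp hq =>
    rw [map_add, map_add, hp, hq, ← Finset.sum_add_distrib]
    refine Finset.sum_congr rfl fun i _ => ?_
    rw [map_add, map_add]; ring
  | mul_X p l hp =>
    rw [map_mul, aeval_X, pderiv_mul, hp]
    have h1 : ∀ i, aeval g (pderiv i (p * X l)) * pderiv j (g i) =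
        aeval g p * (aeval g (pderiv i (X l : MvPolynomial (Fin 4) S)) * pderiv j (g i)) +
          g l * (aeval g (pderiv i p) * pderiv j (g i)) := by
      intro i
      rw [pderiv_mul, map_add, map_mul, map_mul, aeval_X]; ring
    simp only [h1, Finset.sum_add_distrib, ← Finset.mul_sum]
    have h2 : ∑ i, aeval g (pderiv i (X l : MvPolynomial (Fin 4) S)) * pderiv j (g i) =
        pderiv j (g l) := by
      rw [Finset.sum_eq_single l]
      · simp
      · intro b _ hb
        rw [pderiv_X_of_ne hb.symm]; simp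
      · intro h; exact absurd (Finset.mem_univ l) h
    rw [h2]; ring

end ring

section field

variable {k : Type*} [Field k]

theorem T_ne_zero (p s1 s2 : k) (v : Fin 4 → (AlgebraicClosure k)) (hv : v ≠ 0) :
    T (algebraMap k (AlgebraicClosure k) p) (algebraMap k (AlgebraicClosure k) s1) (algebraMap k (AlgebraicClosure k) s2) v ≠ 0 := by
  intro h
  apply hv
  have h0 : v 0 = 0 := congrFun h 0
  have h1 : v 1 = 0 := congrFun h 1
  have h2 : v 2 = 0 := congrFun h 2
  have h3 : v 3 + algebraMap k (AlgebraicClosure k) s1 * v 1 + algebraMap k (AlgebraicClosure k) s2 * v 2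
    + algebraMap k (AlgebraicClosure k) p * v 0 = 0 := congrFun h 3
  rw [h0, h1, h2] at h3
  funext i
  fin_cases i
  · exact h0
  · exact h1
  · exact h2
  · simpa using h3

theorem smooth_shear (F : MvPolynomial (Fin 4) k) (p s1 s2 : k) (hF : IsSmooth k F) :
    IsSmooth k (aeval (shear p s1 s2) F) := by
  intro v hv hFv
  by_contra hcon
  push Not at hcon
  rw [aeval_shear] at hFv
  obtain ⟨i, hi⟩ := hF _ (T_ne_zero p s1 s2 v hv) hFv
  set w := T (algebraMap k (AlgebraicClosure k) p) (algebraMap k (AlgebraicClosure k) s1) (algebraMap k (AlgebraicClosure k) s2) v with hw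
  have hch : ∀ j, ∑ i, aeval w (pderiv i F) * aeval v (pderiv j (shear p s1 s2 i)) = 0 := by
    intro j
    have h1 := hcon j
    rw [pderiv_aeval, map_sum] at h1
    rw [← h1]
    refine Finset.sum_congr rfl fun i _ => ?_
    rw [map_mul, aeval_shear]
  have c3 := hch 3
  have c2 := hch 2
  have c1 := hch 1
  have c0 := hch 0
  simp [Fin.sum_univ_four, shear, pderiv_X] at c3 c2 c1 c0
  rw [c3] at c2 c1 c0
  simp at c2 c1 c0
  fin_cases i
  · exact hi c0
  · exact hi c1
  · exact hi c2
  · exact hi c3

theorem smooth_scale (F : MvPolynomial (Fin 4) k) (c : k) (hc : c ≠ 0) (hF : IsSmooth k F) :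
    IsSmooth k (C c * F) := by
  have hc' : algebraMap k (AlgebraicClosure k) c ≠ 0 := by
    rw [Ne, map_eq_zero_iff _ (algebraMap k (AlgebraicClosure k)).injective]; exact hc
  intro v hv hFv
  rw [map_mul, aeval_C] at hFv
  obtain ⟨i, hi⟩ := hF v hv ((mul_eq_zero.1 hFv).resolve_left hc')
  refine ⟨i, ?_⟩
  rw [pderiv_C_mul, map_mul, aeval_C]
  exact mul_ne_zero hc' hi

theorem dense_scale (F : MvPolynomial (Fin 4) k) (c : k) (hc : c ≠ 0) (d : ℕ)
    (hF : DenseOffLines k F d) : DenseOffLines k (C c * F) d := by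
  have hc' : algebraMap k (AlgebraicClosure k) c ≠ 0 := by
    rw [Ne, map_eq_zero_iff _ (algebraMap k (AlgebraicClosure k)).injective]; exact hc
  rintro n G hG ⟨w, hw, hFw, hGw⟩
  rw [map_mul, aeval_C] at hFw
  obtain ⟨v, ⟨hv0, hFv, hd⟩, hna, hGv⟩ :=
    hF n G hG ⟨w, hw, (mul_eq_zero.1 hFw).resolve_left hc', hGw⟩
  refine ⟨v, ⟨hv0, by rw [map_mul, hFv, mul_zero], hd⟩, ?_, hGv⟩
  rintro ⟨a, b, hab, ha, hb, w', hwa, hwb, hFw'⟩
  refine hna ⟨a, b, hab, ha, hb, w', hwa, hwb, ?_⟩
  rw [map_mul] at hFw'
  exact right_ne_zero_of_mul hFw'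

theorem residueField_T_le (p s1 s2 : k) (v : Fin 4 → (AlgebraicClosure k)) :
    residueField k (T (algebraMap k (AlgebraicClosure k) p) (algebraMap k (AlgebraicClosure k) s1) (algebraMap k (AlgebraicClosure k) s2) v) ≤
      residueField k v := by
  set w := T (algebraMap k (AlgebraicClosure k) p) (algebraMap k (AlgebraicClosure k) s1) (algebraMap k (AlgebraicClosure k) s2) v with hw
  by_cases hv : v = 0
  · rw [residueField, IntermediateField.adjoin_le_iff]
    rintro x ⟨i, j, hj, rfl⟩
    exfalso
    apply hj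
    rw [hw, hv]
    fin_cases j <;> simp [T]
  obtain ⟨l, hl⟩ : ∃ l, v l ≠ 0 := by
    by_contra h
    push Not at h
    exact hv (funext h)
  have hvm : ∀ i, v i / v l ∈ residueField k v := fun i =>
    IntermediateField.subset_adjoin _ _ ⟨i, l, hl, rfl⟩
  have hwm : ∀ i, w i / v l ∈ residueField k v := by
    intro i
    fin_cases i
    · exact hvm 0
    · exact hvm 1
    · exact hvm 2
    · have h3 : w 3 / v l = v 3 / v l + algebraMap k (AlgebraicClosure k) s1 * (v 1 / v l) +
          algebraMap k (AlgebraicClosure k) s2 * (v 2 / v l) + algebraMap k (AlgebraicClosure k) p * (v 0 / v l) := by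
        show (v 3 + algebraMap k (AlgebraicClosure k) s1 * v 1 + algebraMap k (AlgebraicClosure k) s2 * v 2
          + algebraMap k (AlgebraicClosure k) p * v 0) / v l = _
        ring
      show w 3 / v l ∈ residueField k v
      rw [h3]
      have hc : ∀ c : k, algebraMap k (AlgebraicClosure k) c ∈ residueField k v := fun c =>
        (residueField k v).algebraMap_mem c
      exact add_mem (add_mem (add_mem (hvm 3) (mul_mem (hc _) (hvm 1)))
        (mul_mem (hc _) (hvm 2))) (mul_mem (hc _) (hvm 0))
  rw [residueField, IntermediateField.adjoin_le_iff]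
  rintro x ⟨i, j, hj, rfl⟩
  have : w i / w j = (w i / v l) / (w j / v l) := by field_simp
  rw [this]
  exact div_mem (hwm i) (hwm j)

theorem residueField_T (p s1 s2 : k) (v : Fin 4 → (AlgebraicClosure k)) :
    residueField k (T (algebraMap k (AlgebraicClosure k) p) (algebraMap k (AlgebraicClosure k) s1) (algebraMap k (AlgebraicClosure k) s2) v) =
      residueField k v := by
  apply le_antisymm (residueField_T_le p s1 s2 v)
  have h := residueField_T_le (-p) (-s1) (-s2)
    (T (algebraMap k (AlgebraicClosure k) p) (algebraMap k (AlgebraicClosure k) s1) (algebraMap k (AlgebraicClosure k) s2) v)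
  rw [T_comp, map_neg, map_neg, map_neg, neg_add_cancel, neg_add_cancel, neg_add_cancel,
    T_zero] at h
  exact h

/-- the shear on linear forms -/
def Tdual (p s1 s2 : k) (a : Fin 4 → k) : Fin 4 → k :=
  ![a 0 - p * a 3, a 1 - s1 * a 3, a 2 - s2 * a 3, a 3]

theorem onPlane_T (p s1 s2 : k) (a : Fin 4 → k) (v : Fin 4 → (AlgebraicClosure k)) :
    OnPlane k (Tdual p s1 s2 a) (T (algebraMap k (AlgebraicClosure k) p) (algebraMap k (AlgebraicClosure k) s1)
      (algebraMap k (AlgebraicClosure k) s2) v) ↔ OnPlane k a v := by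
  unfold OnPlane
  have : ∑ i, algebraMap k (AlgebraicClosure k) (Tdual p s1 s2 a i) * (T (algebraMap k (AlgebraicClosure k) p) (algebraMap k (AlgebraicClosure k) s1)
      (algebraMap k (AlgebraicClosure k) s2) v) i = ∑ i, algebraMap k (AlgebraicClosure k) (a i) * v i := by
    rw [Fin.sum_univ_four, Fin.sum_univ_four]
    simp [Tdual, T]
    ring
  rw [this]

theorem linInd_Tdual (p s1 s2 : k) (a b : Fin 4 → k) (h : LinearIndependent k ![a, b]) :
    LinearIndependent k ![Tdual p s1 s2 a, Tdual p s1 s2 b] := by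
  rw [LinearIndependent.pair_iff] at h ⊢
  intro x y hxy
  apply h
  have e0 := congrFun hxy 0
  have e1 := congrFun hxy 1
  have e2 := congrFun hxy 2
  have e3 := congrFun hxy 3
  simp [Tdual] at e0 e1 e2 e3
  funext i
  fin_cases i
  · simp; linear_combination e0 + p * e3
  · simp; linear_combination e1 + s1 * e3
  · simp; linear_combination e2 + s2 * e3
  · simp; linear_combination e3

theorem arises_T (F : MvPolynomial (Fin 4) k) (p s1 s2 : k) (v : Fin 4 → (AlgebraicClosure k))
    (h : ArisesFromLine k (aeval (shear p s1 s2) F) v) :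
    ArisesFromLine k F (T (algebraMap k (AlgebraicClosure k) p) (algebraMap k (AlgebraicClosure k) s1) (algebraMap k (AlgebraicClosure k) s2) v) := by
  obtain ⟨a, b, hab, ha, hb, w, hwa, hwb, hFw⟩ := h
  refine ⟨Tdual p s1 s2 a, Tdual p s1 s2 b, linInd_Tdual p s1 s2 a b hab,
    (onPlane_T p s1 s2 a v).2 ha, (onPlane_T p s1 s2 b v).2 hb,
    T (algebraMap k (AlgebraicClosure k) p) (algebraMap k (AlgebraicClosure k) s1) (algebraMap k (AlgebraicClosure k) s2) w,
    (onPlane_T p s1 s2 a w).2 hwa, (onPlane_T p s1 s2 b w).2 hwb, ?_⟩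
  rwa [aeval_shear] at hFw

theorem shear_isHomogeneous {S : Type*} [CommRing S] (F : MvPolynomial (Fin 4) S) (n : ℕ)
    (p s1 s2 : S) (hF : F.IsHomogeneous n) : (aeval (shear p s1 s2) F).IsHomogeneous n := by
  have h := hF.aeval (shear p s1 s2) (n := 1) (by
    intro i
    fin_cases i
    · exact isHomogeneous_X _ _
    · exact isHomogeneous_X _ _
    · exact isHomogeneous_X _ _
    · exact (((isHomogeneous_X _ _).add (isHomogeneous_C_mul_X _ _)).add
        (isHomogeneous_C_mul_X _ _)).add (isHomogeneous_C_mul_X _ _))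
  rwa [one_mul] at h

theorem dense_shear (F : MvPolynomial (Fin 4) k) (d : ℕ) (p s1 s2 : k)
    (hF : DenseOffLines k F d) : DenseOffLines k (aeval (shear p s1 s2) F) d := by
  rintro n G hG ⟨w, hw, hFw, hGw⟩
  rw [aeval_shear] at hFw
  have hinv : ∀ v : Fin 4 → (AlgebraicClosure k), T (algebraMap k (AlgebraicClosure k) (-p)) (algebraMap k (AlgebraicClosure k) (-s1))
      (algebraMap k (AlgebraicClosure k) (-s2)) (T (algebraMap k (AlgebraicClosure k) p) (algebraMap k (AlgebraicClosure k) s1)
      (algebraMap k (AlgebraicClosure k) s2) v) = v := by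
    intro v
    rw [T_comp, map_neg, map_neg, map_neg, neg_add_cancel, neg_add_cancel, neg_add_cancel,
      T_zero]
  have hinv' : ∀ v : Fin 4 → (AlgebraicClosure k), T (algebraMap k (AlgebraicClosure k) p) (algebraMap k (AlgebraicClosure k) s1)
      (algebraMap k (AlgebraicClosure k) s2) (T (algebraMap k (AlgebraicClosure k) (-p)) (algebraMap k (AlgebraicClosure k) (-s1))
      (algebraMap k (AlgebraicClosure k) (-s2)) v) = v := by
    intro v
    rw [T_comp, map_neg, map_neg, map_neg, add_neg_cancel, add_neg_cancel, add_neg_cancel,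
      T_zero]
  obtain ⟨v', ⟨hv0, hFv, hd⟩, hna, hGv⟩ := hF n (aeval (shear (-p) (-s1) (-s2)) G)
    (shear_isHomogeneous G n _ _ _ hG)
    ⟨T (algebraMap k (AlgebraicClosure k) p) (algebraMap k (AlgebraicClosure k) s1) (algebraMap k (AlgebraicClosure k) s2) w,
      T_ne_zero p s1 s2 w hw, hFw, by rw [aeval_shear, hinv]; exact hGw⟩
  rw [aeval_shear] at hGv
  refine ⟨T (algebraMap k (AlgebraicClosure k) (-p)) (algebraMap k (AlgebraicClosure k) (-s1)) (algebraMap k (AlgebraicClosure k) (-s2)) v',
    ⟨T_ne_zero _ _ _ _ hv0, ?_, ?_⟩, ?_, hGv⟩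
  · rw [aeval_shear, hinv']; exact hFv
  · rw [residueField_T]; exact hd
  · intro h
    apply hna
    have := arises_T F p s1 s2 _ h
    rwa [hinv'] at this

end field

end Quintic99
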