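import Pool.Agent.H99.Quintic.Irred

/-! Forms close to the special form are smooth. -/

namespace Quintic99

open MvPolynomial

theorem special_smooth {κ : Type*} [Field κ] (h7 : (7 : κ) = 0) (a b c d : κ)
    (d0 : -4 * a ^ 3 * d + 3 * a ^ 2 * c ^ 2 = 0) (d1 : c ^ 4 + 5 * b ^ 4 = 0)
    (d2 : 2 * a ^ 3 * c + 4 * b * c ^ 3 = 0) (d3 : - a ^ 4 + 5 * d ^ 4 = 0) :
    a = 0 ∧ b = 0 ∧ c = 0 ∧ d = 0 := by
  by_cases ha : a = 0
  · subst ha
    have hd : d ^ 4 = 0 := by linear_combination 3 * d3 - 2 * d ^ 4 * h7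
    have hd' : d = 0 := pow_eq_zero_iff (by norm_num) |>.1 hd
    have hbc : b * c ^ 3 = 0 := by linear_combination 2 * d2 - b * c ^ 3 * h7
    rcases mul_eq_zero.1 hbc with h | h
    · subst h
      have hc : c ^ 4 = 0 := by linear_combination d1
      exact ⟨rfl, rfl, pow_eq_zero_iff (by norm_num) |>.1 hc, hd'⟩
    · have hc' : c = 0 := pow_eq_zero_iff (by norm_num) |>.1 h
      subst hc'
      have hb : b ^ 4 = 0 := by linear_combination 3 * d1 - 2 * b ^ 4 * h7
      exact ⟨rfl, pow_eq_zero_iff (by norm_num) |>.1 hb, rfl, hd'⟩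
  · exfalso
    have e1 : c ^ 2 = - a * d := by
      apply mul_left_cancel₀ (pow_ne_zero 2 ha)
      linear_combination 5 * d0 - 2 * a ^ 2 * c ^ 2 * h7 + 3 * a ^ 3 * d * h7
    have hd : d ≠ 0 := by
      rintro rfl
      have : a ^ 4 = 0 := by linear_combination - d3
      exact (pow_ne_zero 4 ha) this
    have hc : c ≠ 0 := by
      rintro rfl
      have : a * d = 0 := by linear_combination e1
      exact mul_ne_zero ha hd this
    have e2 : a ^ 2 = 2 * b * d := by
      apply mul_left_cancel₀ (mul_ne_zero ha hc)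
      linear_combination 4 * d2 - a ^ 3 * c * h7 - 2 * b * c ^ 3 * h7 - 2 * b * c * e1
    have e3 : a ^ 2 * d ^ 2 = 2 * b ^ 4 := by
      linear_combination d1 - (c ^ 2 - a * d) * e1 - b ^ 4 * h7
    have hb : b ≠ 0 := by
      rintro rfl
      have : a ^ 2 = 0 := by linear_combination e2
      exact (pow_ne_zero 2 ha) this
    have e4 : d ^ 3 = b ^ 3 := by
      apply mul_left_cancel₀ hb
      linear_combination 4 * e3 - 4 * d ^ 2 * e2 - b * d ^ 3 * h7 + b ^ 4 * h7
    have e5 : b ^ 2 = 3 * d ^ 2 := by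
      apply mul_left_cancel₀ (pow_ne_zero 2 hd)
      linear_combination - 2 * d3 - 2 * (a ^ 2 + 2 * b * d) * e2 - b ^ 2 * d ^ 2 * h7 + d ^ 4 * h7
    have e6 : d ^ 6 = 0 := by
      linear_combination - 3 * (d ^ 3 + b ^ 3) * e4
        - 3 * (b ^ 4 + b ^ 2 * (3 * d ^ 2) + 9 * d ^ 4) * e5 - 11 * d ^ 6 * h7
    exact (pow_ne_zero 6 hd) e6

theorem form_eS_zero {κ : Type*} [CommRing κ] : form (eS (0 : κ)) =
    - (X 0 ^ 4 * X 3) + X 0 ^ 3 * X 2 ^ 2 + X 3 ^ 5 + X 1 * X 2 ^ 4 + X 1 ^ 5 := by
  simp [form, Finset.sum_range_succ, eS]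
  ring

theorem aeval_mul_of_homog {k A : Type*} [CommRing k] [CommRing A] [Algebra k A]
    (G : MvPolynomial (Fin 4) k) (n : ℕ) (hG : G.IsHomogeneous n) (c : A) (w : Fin 4 → A) :
    aeval (fun i => c * w i) G = c ^ n * aeval w G := by
  rw [aeval_def, aeval_def, eval₂_eq', eval₂_eq', Finset.mul_sum]
  refine Finset.sum_congr rfl fun d hd => ?_
  have hdeg : ∑ i, d i = n := by
    have := hG (mem_support_iff.1 hd)
    rw [← this, Finsupp.weight_apply, Finsupp.sum_fintype _ _ (by simp)]
    simp
  simp only [mul_pow, Finset.prod_mul_distrib, Finset.prod_pow_eq_pow_sum, hdeg]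
  ring

theorem smooth_special {κ : Type*} [Field κ] (h7 : (7 : κ) = 0) (w : Fin 4 → κ)
    (h : ∀ i, eval w (pderiv i (form (eS (0 : κ)))) = 0) : w = 0 := by
  have d0 := h 0
  have d1 := h 1
  have d2 := h 2
  have d3 := h 3
  rw [form_eS_zero] at d0 d1 d2 d3
  simp [pderiv_X] at d0 d1 d2 d3
  have := special_smooth h7 (w 0) (w 1) (w 2) (w 3) (by linear_combination d0)
    (by linear_combination d1) (by linear_combination d2) (by linear_combination d3)
  funext i
  fin_cases i
  · exact this.1
  · exact this.2.1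
  · exact this.2.2.1
  · exact this.2.2.2

theorem smooth_of_close {O k : Type*} [CommRing O] [Field k] [Algebra O k]
    (W : ValuationSubring (AlgebraicClosure k)) (ψ : O →+* W)
    (hψ : ∀ x, (ψ x : AlgebraicClosure k) = algebraMap k (AlgebraicClosure k) (algebraMap O k x))
    (h7 : (7 : IsLocalRing.ResidueField W) = 0) (e : ℕ → ℕ → ℕ → O)
    (he : ∀ i j l, IsLocalRing.residue W (ψ (e i j l)) = eS 0 i j l) :
    IsSmooth k (form fun i j l => algebraMap O k (e i j l)) := by
  intro v hv hF
  by_contra hcon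
  push Not at hcon
  obtain ⟨j, hj⟩ := Finite.exists_max (fun i => W.valuation (v i))
  have hvj : v j ≠ 0 := by
    intro h
    apply hv
    funext i
    have := hj i
    rw [h, map_zero, le_zero_iff, map_eq_zero] at this
    exact this
  set w : Fin 4 → AlgebraicClosure k := fun i => v i / v j with hw
  have hwW : ∀ i, w i ∈ W := by
    intro i
    rw [← W.valuation_le_one_iff, hw]
    simp only [map_div₀]
    exact div_le_one_of_le₀ (hj i) zero_le
  have hvw : v = fun i => v j * w i := by
    funext i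
    rw [hw]; field_simp
  set wW : Fin 4 → W := fun i => ⟨w i, hwW i⟩ with hwW'
  have hform : ∀ i, aeval w (pderiv i (form fun i j l => algebraMap O k (e i j l))) = 0 := by
    intro i
    have h1 := hcon i
    rw [hvw, aeval_mul_of_homog _ _ (form_isHomogeneous _).pderiv] at h1
    rcases mul_eq_zero.1 h1 with h | h
    · exact absurd h (pow_ne_zero _ hvj)
    · exact h
  have hred : ∀ i, eval₂ ψ wW (pderiv i (form e)) = 0 := by
    intro i
    have h1 := hform i
    rw [map_form (algebraMap O k), pderiv_map, aeval_def, eval₂_map] at h1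
    have h2 : ((eval₂ ψ wW (pderiv i (form e)) : W) : AlgebraicClosure k) =
        eval₂ ((algebraMap k (AlgebraicClosure k)).comp (algebraMap O k)) w
          (pderiv i (form e)) := by
      have h3 := eval₂_comp_left (W.subtype) ψ wW (pderiv i (form e))
      have h4 : (W.subtype : W →+* AlgebraicClosure k).comp ψ =
          (algebraMap k (AlgebraicClosure k)).comp (algebraMap O k) := by
        ext x; exact hψ x
      rw [h4] at h3
      exact h3
    apply Subtype.ext
    rw [h2, h1]
    rfl
  set res := IsLocalRing.residue W with hres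
  have hk : ∀ i, eval (fun i => res (wW i)) (pderiv i (form (eS (0 : IsLocalRing.ResidueField W))))
      = 0 := by
    intro i
    have h1 := congrArg res (hred i)
    rw [map_zero, eval₂_comp_left] at h1
    have h2 : form (eS (0 : IsLocalRing.ResidueField W)) = map (res.comp ψ) (form e) := by
      rw [← map_form]
      congr 1
      funext i j l
      exact (he i j l).symm
    rw [h2, pderiv_map, eval_map]
    exact h1
  have h0 := smooth_special h7 _ hk
  have h1 := congrFun h0 j
  have h2 : wW j = 1 := by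
    apply Subtype.ext
    show v j / v j = 1
    exact div_self hvj
  simp only [h2, map_one, Pi.zero_apply] at h1
  exact one_ne_zero h1

end Quintic99
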