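import Pool.Agent.H99.Quintic.Root

/-! The parameters of the osculating conic are algebraic over the field generated by its points. -/

namespace Quintic99

open Polynomial

theorem alg_of_point {k Ω : Type*} [Field k] [Field Ω] [Algebra k Ω] (e : ℕ → ℕ → ℕ → k)
    (la mu t δ : Ω) (ht : t ≠ 0)
    (hδ : (D' (fun i j l => algebraMap k Ω (e i j l)) la mu).eval t =
      δ * t * (a0 (fun i j l => algebraMap k Ω (e i j l)) la) ^ 3)
    (la0 : Ω) (h0 : a0 (fun i j l => algebraMap k Ω (e i j l)) la0 = 0)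
    (hb : b0 (fun i j l => algebraMap k Ω (e i j l)) la0 ≠ 0)
    (M : IntermediateField k Ω) (hξ : la + mu * t ∈ M) (htM : t ∈ M) (hδM : δ ∈ M) :
    IsAlgebraic M la := by
  let w' : M := ⟨la + mu * t, hξ⟩
  let t' : M := ⟨t, htM⟩
  let δ' : M := ⟨δ, hδM⟩
  let eM : ℕ → ℕ → ℕ → M[X] := fun i j l => C (algebraMap k M (e i j l))
  let E : M[X] := (D' eM X (C t'⁻¹ * (C w' - X))).eval (C t') - C (δ' * t') * (a0 eM X) ^ 3
  have hE : ∀ x : Ω, aeval x E = (D' (fun i j l => algebraMap k Ω (e i j l)) x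
      (t⁻¹ * (la + mu * t - x))).eval t -
      δ * t * (a0 (fun i j l => algebraMap k Ω (e i j l)) x) ^ 3 := by
    intro x
    let φ : M[X] →+* Ω := (aeval x : M[X] →ₐ[M] Ω).toRingHom
    have hφ : ∀ p, φ p = aeval x p := fun _ => rfl
    have hφC : ∀ c : M, φ (C c) = (c : Ω) := by
      intro c; rw [hφ, aeval_C]; rfl
    have hφe : (fun i j l => φ (eM i j l)) = fun i j l => algebraMap k Ω (e i j l) := by
      funext i j l
      show φ (C (algebraMap k M (e i j l))) = _
      rw [hφC]; rfl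
    have hφX : φ X = x := by rw [hφ, aeval_X]
    have hφY : φ (C t'⁻¹ * (C w' - X)) = t⁻¹ * (la + mu * t - x) := by
      rw [map_mul, map_sub, hφC, hφC, hφX]; rfl
    have h1 : φ ((D' eM X (C t'⁻¹ * (C w' - X))).eval (C t')) =
        (D' (fun i j l => algebraMap k Ω (e i j l)) x (t⁻¹ * (la + mu * t - x))).eval t := by
      rw [← eval₂_hom, ← eval_map, ← map_D', hφe, hφX, hφY, hφC]
    have h2 : φ (a0 eM X) = a0 (fun i j l => algebraMap k Ω (e i j l)) x := by
      rw [← map_a0, hφe, hφX]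
    rw [← hφ]
    show φ ((D' eM X (C t'⁻¹ * (C w' - X))).eval (C t') - C (δ' * t') * (a0 eM X) ^ 3) = _
    rw [map_sub, h1, map_mul, map_pow, h2, hφC]
    rfl
  refine ⟨E, ?_, ?_⟩
  · intro hE0
    have h := hE la0
    rw [hE0, map_zero, h0] at h
    simp only [D', be, ga, de, h0, eval_add, eval_mul, eval_C, eval_X, eval_pow] at h
    have h2 : (b0 (fun i j l => algebraMap k Ω (e i j l)) la0) ^ 2 * t ^ 2 = 0 := by
      linear_combination h
    exact mul_ne_zero (pow_ne_zero 2 hb) (pow_ne_zero 2 ht) h2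
  · rw [hE]
    have h1 : t⁻¹ * (la + mu * t - la) = mu := by field_simp; ring
    rw [h1, hδ, sub_self]

/-- a point of the conic, over any ring -/
noncomputable def ptS {S : Type*} [CommRing S] (e : ℕ → ℕ → ℕ → S) (l m t : S) : Fin 4 → S :=
  ![(D' e l m).eval t, a0 e l ^ 3 * t * (l + m * t), a0 e l ^ 3 * t, a0 e l ^ 3 * t * t]

theorem eval_ptS {S : Type*} [CommRing S] (e : ℕ → ℕ → ℕ → S) (l m t : S)
    (h0 : e 0 0 0 = 0) (h1 : e 1 0 0 = 0) (h2 : e 0 1 0 = 0) (h3 : e 0 0 1 = -1) :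
    MvPolynomial.eval (ptS e l m t) (form e) = a0 e l ^ 3 * t ^ 5 * (R' e l m).eval t := by
  have h := congrArg (fun p => eval t p) (aeval_conic e l m h0 h1 h2 h3)
  simp only [eval_mul, eval_C, eval_pow, eval_X] at h
  rw [← h]
  have : ∀ (v : Fin 4 → S[X]) (F : MvPolynomial (Fin 4) S),
      aeval t (MvPolynomial.aeval v F) = MvPolynomial.aeval (fun i => aeval t (v i)) F := by
    intro v F
    rw [← AlgHom.comp_apply, MvPolynomial.comp_aeval]
  have h4 := this ![D' e l m, C (a0 e l ^ 3) * X * (C l + C m * X), C (a0 e l ^ 3) * X,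
      C (a0 e l ^ 3) * X * X] (form e)
  rw [coe_aeval_eq_eval] at h4
  rw [h4]
  have hv : (fun i => eval t ((![D' e l m, C (a0 e l ^ 3) * X * (C l + C m * X),
      C (a0 e l ^ 3) * X, C (a0 e l ^ 3) * X * X] : Fin 4 → S[X]) i)) = ptS e l m t := by
    funext i
    fin_cases i <;> simp [ptS]
  rw [hv]
  rfl

section generic

variable {k : Type*} [Field k] (e : ℕ → ℕ → ℕ → k)

/-- the coefficients in the polynomial ring -/
noncomputable def eB : ℕ → ℕ → ℕ → MvPolynomial (Fin 3) k := fun i j l => MvPolynomial.C (e i j l)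

/-- the generic conic -/
noncomputable def vB : Fin 4 → (MvPolynomial (Fin 3) k)[X] :=
  ![D' (eB e) (MvPolynomial.X 0) (MvPolynomial.X 1),
    C (a0 (eB e) (MvPolynomial.X 0) ^ 3) * X * (C (MvPolynomial.X 0) + C (MvPolynomial.X 1) * X),
    C (a0 (eB e) (MvPolynomial.X 0) ^ 3) * X,
    C (a0 (eB e) (MvPolynomial.X 0) ^ 3) * X * X]

variable {Ω : Type*} [Field Ω] [Algebra k Ω] (g : MvPolynomial (Fin 3) k →+* Ω)
  (hg : ∀ c, g (MvPolynomial.C c) = algebraMap k Ω c) (t : Ω)

include hg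

theorem spec_R : (R' (eB e) (MvPolynomial.X 0) (MvPolynomial.X 1)).eval₂ g t =
    (R' (fun i j l => algebraMap k Ω (e i j l)) (g (MvPolynomial.X 0))
      (g (MvPolynomial.X 1))).eval t := by
  have he : (fun i j l => g (eB e i j l)) = fun i j l => algebraMap k Ω (e i j l) := by
    funext i j l; exact hg _
  rw [← eval_map, ← map_R', he]

theorem spec_a0 : g (a0 (eB e) (MvPolynomial.X 0)) =
    a0 (fun i j l => algebraMap k Ω (e i j l)) (g (MvPolynomial.X 0)) := by
  have he : (fun i j l => g (eB e i j l)) = fun i j l => algebraMap k Ω (e i j l) := by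
    funext i j l; exact hg _
  rw [← map_a0, he]

theorem spec_H (G : MvPolynomial (Fin 4) k) : (MvPolynomial.aeval (vB e) G).eval₂ g t =
    MvPolynomial.aeval (ptS (fun i j l => algebraMap k Ω (e i j l)) (g (MvPolynomial.X 0))
      (g (MvPolynomial.X 1)) t) G := by
  have he : (fun i j l => g (eB e i j l)) = fun i j l => algebraMap k Ω (e i j l) := by
    funext i j l; exact hg _
  have ha : g (a0 (eB e) (MvPolynomial.X 0)) =
    a0 (fun i j l => algebraMap k Ω (e i j l)) (g (MvPolynomial.X 0)) := spec_a0 e g hg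
  have hD : (D' (eB e) (MvPolynomial.X 0) (MvPolynomial.X 1)).eval₂ g t =
      (D' (fun i j l => algebraMap k Ω (e i j l)) (g (MvPolynomial.X 0))
      (g (MvPolynomial.X 1))).eval t := by
    rw [← eval_map, ← map_D', he]
  have : (eval₂RingHom g t).comp (MvPolynomial.aeval (vB e) :
      MvPolynomial (Fin 4) k →ₐ[k] (MvPolynomial (Fin 3) k)[X]).toRingHom =
      (MvPolynomial.aeval (ptS (fun i j l => algebraMap k Ω (e i j l)) (g (MvPolynomial.X 0))
      (g (MvPolynomial.X 1)) t) : MvPolynomial (Fin 4) k →ₐ[k] Ω).toRingHom := by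
    apply MvPolynomial.ringHom_ext
    · intro c
      show eval₂ g t (MvPolynomial.aeval (vB e) (MvPolynomial.C c)) = MvPolynomial.aeval _
        (MvPolynomial.C c)
      rw [MvPolynomial.aeval_C, MvPolynomial.aeval_C]
      show eval₂ g t (C (MvPolynomial.C c)) = _
      rw [eval₂_C, hg]
    · intro i
      show eval₂ g t (MvPolynomial.aeval (vB e) (MvPolynomial.X i)) = MvPolynomial.aeval _
        (MvPolynomial.X i)
      rw [MvPolynomial.aeval_X, MvPolynomial.aeval_X]
      fin_cases i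
      · exact hD
      · show eval₂ g t (C (a0 (eB e) (MvPolynomial.X 0) ^ 3) * X *
          (C (MvPolynomial.X 0) + C (MvPolynomial.X 1) * X)) =
          a0 (fun i j l => algebraMap k Ω (e i j l)) (g (MvPolynomial.X 0)) ^ 3 * t *
          (g (MvPolynomial.X 0) + g (MvPolynomial.X 1) * t)
        simp only [eval₂_mul, eval₂_add, eval₂_pow, eval₂_C, eval₂_X, map_pow, ha]
      · show eval₂ g t (C (a0 (eB e) (MvPolynomial.X 0) ^ 3) * X) =
          a0 (fun i j l => algebraMap k Ω (e i j l)) (g (MvPolynomial.X 0)) ^ 3 * t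
        simp only [eval₂_mul, eval₂_pow, eval₂_C, eval₂_X, map_pow, ha]
      · show eval₂ g t (C (a0 (eB e) (MvPolynomial.X 0) ^ 3) * X * X) =
          a0 (fun i j l => algebraMap k Ω (e i j l)) (g (MvPolynomial.X 0)) ^ 3 * t * t
        simp only [eval₂_mul, eval₂_pow, eval₂_C, eval₂_X, map_pow, ha]
  exact congrArg (fun f => f G) this

end generic

end Quintic99
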